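import Mathlib

/-! `(k,s)`-graphs, the Ramsey number, and the cut lemma for Ramsey-critical graphs. -/

namespace Pool.Agent.RamseyHam

open Finset

variable {α β γ : Type*}

/-- `H` has no `K_k` and no independent `s`-set -/
def KS (k s : ℕ) (H : SimpleGraph α) : Prop := H.CliqueFree k ∧ Hᶜ.CliqueFree s

/-- `r` is the Ramsey number `R(k,s)`: no `(k,s)`-graph has `r` vertices or more, and there is one
on `r-1` vertices -/
structure IsRam (k s r : ℕ) : Prop where
  pos : 0 < r
  upper : ∀ n, r ≤ n → ∀ H : SimpleGraph (Fin n), ¬ KS k s H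
  lower : ∃ H : SimpleGraph (Fin (r - 1)), KS k s H

theorem clique_card_lt {H : SimpleGraph α} {k : ℕ} (h : H.CliqueFree k) {S : Finset α}
    (hS : H.IsClique S) : S.card < k := by
  by_contra hc
  exact (h.mono (not_lt.mp hc)) S ⟨hS, rfl⟩

theorem KS.mono {H : SimpleGraph α} {k s s' : ℕ} (h : KS k s H) (hs : s ≤ s') : KS k s' H :=
  ⟨h.1, h.2.mono hs⟩

theorem KS.of_embedding {H : SimpleGraph α} {K : SimpleGraph β} {k s : ℕ} (f : K ↪g H)
    (h : KS k s H) : KS k s K :=
  ⟨h.1.comap f.isContained, h.2.comap (SimpleGraph.Embedding.complEquiv f).isContained⟩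

theorem IsRam.card_lt {k s r : ℕ} (hr : IsRam k s r) [Fintype α] {H : SimpleGraph α}
    (h : KS k s H) : Fintype.card α < r := by
  by_contra hc
  have hc := not_lt.mp hc
  let e : Fin (Fintype.card α) ≃ α := (Fintype.equivFin α).symm
  exact hr.upper _ hc _ (h.of_embedding (SimpleGraph.Embedding.comap e.toEmbedding H))

/-- add a dominating vertex -/
def dom (H : SimpleGraph α) : SimpleGraph (α ⊕ Unit) where
  Adj u v := match u, v with
    | .inl x, .inl y => H.Adj x y
    | .inl _, .inr _ => True
    | .inr _, .inl _ => True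
    | .inr _, .inr _ => False
  symm := ⟨by
    rintro (x | x) (y | y) h
    · exact SimpleGraph.Adj.symm (G := H) h
    · trivial
    · trivial
    · exact h⟩
  loopless := ⟨by
    rintro (x | x) h
    · exact H.loopless.irrefl x h
    · exact h⟩

theorem dom_KS {H : SimpleGraph α} {k p : ℕ} (hp : 2 ≤ p) (h : KS k p H) : KS (k + 1) p (dom H) := by
  classical
  constructor
  · intro Q hQ
    have h1 : H.IsClique (Q.toLeft : Set α) := by
      intro x hx y hy hxy
      have hx' : Sum.inl x ∈ Q := by simpa using hx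
      have hy' : Sum.inl y ∈ Q := by simpa using hy
      exact hQ.isClique hx' hy' (by simpa using hxy)
    have h2 := clique_card_lt h.1 h1
    have h3 := card_toLeft_add_card_toRight (u := Q)
    have h4 : Q.toRight.card ≤ 1 := by
      calc Q.toRight.card ≤ (univ : Finset Unit).card := card_le_univ _
        _ = 1 := by simp
    have h5 := hQ.card_eq
    omega
  · intro Q hQ
    have hr : Q.toRight = ∅ := by
      by_contra hne
      obtain ⟨u, hu⟩ := nonempty_iff_ne_empty.mpr hne
      have hu' : (Sum.inr u : α ⊕ Unit) ∈ Q := by simpa using hu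
      have h1 : 1 < Q.card := by rw [hQ.card_eq]; omega
      obtain ⟨v, hv, hne⟩ := exists_mem_ne h1 (Sum.inr u)
      have hadj := hQ.isClique hv hu' hne
      rw [SimpleGraph.compl_adj] at hadj
      rcases v with x | v
      · exact hadj.2 trivial
      · exact hne (by simp)
    have h1 : Hᶜ.IsClique (Q.toLeft : Set α) := by
      intro x hx y hy hxy
      have hx' : Sum.inl x ∈ Q := by simpa using hx
      have hy' : Sum.inl y ∈ Q := by simpa using hy
      have := hQ.isClique hx' hy' (by simpa using hxy)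
      rw [SimpleGraph.compl_adj] at this ⊢
      exact ⟨hxy, fun h => this.2 h⟩
    have h2 := clique_card_lt h.2 h1
    have h3 := card_toLeft_add_card_toRight (u := Q)
    have h5 := hQ.card_eq
    rw [hr] at h3
    simp at h3
    omega

/-- the gluing of two graphs along `j` twin vertices -/
def glue {j : ℕ} (HA : SimpleGraph α) (HB : SimpleGraph β) (a : Fin j → α) (b : Fin j → β) :
    SimpleGraph (α ⊕ (β ⊕ Fin j)) where
  Adj u v := match u, v with
    | .inl x, .inl y => HA.Adj x y
    | .inl x, .inr (.inl y) => ∃ i, x = a i ∧ y = b i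
    | .inl x, .inr (.inr i) => HA.Adj x (a i)
    | .inr (.inl y), .inl x => ∃ i, x = a i ∧ y = b i
    | .inr (.inl y), .inr (.inl z) => HB.Adj y z
    | .inr (.inl y), .inr (.inr i) => HB.Adj y (b i)
    | .inr (.inr i), .inl x => HA.Adj x (a i)
    | .inr (.inr i), .inr (.inl y) => HB.Adj y (b i)
    | .inr (.inr i), .inr (.inr i') => i ≠ i'
  symm := ⟨by
    rintro (x | x | x) (y | y | y) h
    · exact SimpleGraph.Adj.symm (G := HA) h
    · exact h
    · exact h
    · exact h
    · exact SimpleGraph.Adj.symm (G := HB) h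
    · exact h
    · exact h
    · exact h
    · exact fun h' => h h'.symm⟩
  loopless := ⟨by
    rintro (x | x | x) h
    · exact HA.loopless.irrefl x h
    · exact HB.loopless.irrefl x h
    · exact h rfl⟩

section
variable {j k p q : ℕ} {HA : SimpleGraph α} {HB : SimpleGraph β} {a : Fin j → α} {b : Fin j → β}

theorem glue_cliqueFree (hA : HA.CliqueFree k) (hB : HB.CliqueFree k)
    (ha : ∀ i i', i ≠ i' → HA.Adj (a i) (a i')) (hb : ∀ i i', i ≠ i' → HB.Adj (b i) (b i'))
    (hj : j + 2 = k) : (glue HA HB a b).CliqueFree k := by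
  classical
  have ainj : Function.Injective a := by
    intro i i' h
    by_contra hne
    have := ha i i' hne
    rw [h] at this
    exact HA.loopless.irrefl _ this
  have binj : Function.Injective b := by
    intro i i' h
    by_contra hne
    have := hb i i' hne
    rw [h] at this
    exact HB.loopless.irrefl _ this
  intro Q hQ
  set QA := Q.toLeft with hQA
  set QB := Q.toRight.toLeft with hQB
  set QW := Q.toRight.toRight with hQW
  have hc1 := card_toLeft_add_card_toRight (u := Q)
  have hc2 := card_toLeft_add_card_toRight (u := Q.toRight)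
  rw [← hQA] at hc1
  rw [← hQB, ← hQW] at hc2
  have hcard := hQ.card_eq
  have mA : ∀ x, x ∈ QA ↔ Sum.inl x ∈ Q := fun x => by simp [hQA]
  have mB : ∀ x, x ∈ QB ↔ Sum.inr (Sum.inl x) ∈ Q := fun x => by simp [hQB]
  have mW : ∀ x, x ∈ QW ↔ Sum.inr (Sum.inr x) ∈ Q := fun x => by simp [hQW]
  rcases QB.eq_empty_or_nonempty with hBe | hBne
  · -- clique in `A ∪ W`
    have hcl : HA.IsClique ((QA ∪ QW.image a : Finset α) : Set α) := by
      intro x hx y hy hxy
      simp only [coe_union, coe_image, Set.mem_union, Set.mem_image, mem_coe] at hx hy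
      rcases hx with hx | ⟨i, hi, rfl⟩ <;> rcases hy with hy | ⟨i', hi', rfl⟩
      · exact hQ.isClique ((mA x).mp hx) ((mA y).mp hy) (by simpa using hxy)
      · exact hQ.isClique ((mA x).mp hx) ((mW i').mp hi') (by simp)
      · have h : HA.Adj y (a i) := hQ.isClique ((mA y).mp hy) ((mW i).mp hi) (by simp)
        exact SimpleGraph.Adj.symm (G := HA) h
      · exact ha i i' (fun h => hxy (by rw [h]))
    have hdis : Disjoint QA (QW.image a) := by
      rw [disjoint_left]
      intro x hx hx'
      obtain ⟨i, hi, rfl⟩ := mem_image.mp hx'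
      exact HA.loopless.irrefl _
        (hQ.isClique ((mA _).mp hx) ((mW i).mp hi) (by simp) : HA.Adj (a i) (a i))
    have := clique_card_lt hA hcl
    rw [card_union_of_disjoint hdis, card_image_of_injective _ ainj] at this
    rw [hBe] at hc2
    simp at hc2
    omega
  rcases QA.eq_empty_or_nonempty with hAe | hAne
  · have hcl : HB.IsClique ((QB ∪ QW.image b : Finset β) : Set β) := by
      intro x hx y hy hxy
      simp only [coe_union, coe_image, Set.mem_union, Set.mem_image, mem_coe] at hx hy
      rcases hx with hx | ⟨i, hi, rfl⟩ <;> rcases hy with hy | ⟨i', hi', rfl⟩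
      · exact hQ.isClique ((mB x).mp hx) ((mB y).mp hy) (by simpa using hxy)
      · exact hQ.isClique ((mB x).mp hx) ((mW i').mp hi') (by simp)
      · have h : HB.Adj y (b i) := hQ.isClique ((mB y).mp hy) ((mW i).mp hi) (by simp)
        exact SimpleGraph.Adj.symm (G := HB) h
      · exact hb i i' (fun h => hxy (by rw [h]))
    have hdis : Disjoint QB (QW.image b) := by
      rw [disjoint_left]
      intro x hx hx'
      obtain ⟨i, hi, rfl⟩ := mem_image.mp hx'
      exact HB.loopless.irrefl _
        (hQ.isClique ((mB _).mp hx) ((mW i).mp hi) (by simp) : HB.Adj (b i) (b i))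
    have := clique_card_lt hB hcl
    rw [card_union_of_disjoint hdis, card_image_of_injective _ binj] at this
    rw [hAe] at hc1
    simp at hc1
    omega
  obtain ⟨x, hx⟩ := hAne
  obtain ⟨y, hy⟩ := hBne
  obtain ⟨i, rfl, rfl⟩ : ∃ i, x = a i ∧ y = b i :=
    hQ.isClique ((mA x).mp hx) ((mB y).mp hy) (by simp)
  have hA1 : QA.card ≤ 1 := by
    rw [card_le_one]
    intro u hu v hv
    obtain ⟨i1, rfl, h1⟩ : ∃ i', u = a i' ∧ b i = b i' :=
      hQ.isClique ((mA u).mp hu) ((mB _).mp hy) (by simp)
    obtain ⟨i2, rfl, h2⟩ : ∃ i', v = a i' ∧ b i = b i' :=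
      hQ.isClique ((mA v).mp hv) ((mB _).mp hy) (by simp)
    rw [← binj h1, ← binj h2]
  have hB1 : QB.card ≤ 1 := by
    rw [card_le_one]
    intro u hu v hv
    obtain ⟨i1, h1, rfl⟩ : ∃ i', a i = a i' ∧ u = b i' :=
      hQ.isClique ((mA _).mp hx) ((mB u).mp hu) (by simp)
    obtain ⟨i2, h2, rfl⟩ : ∃ i', a i = a i' ∧ v = b i' :=
      hQ.isClique ((mA _).mp hx) ((mB v).mp hv) (by simp)
    rw [← ainj h1, ← ainj h2]
  have hW1 : QW.card ≤ j - 1 := by
    have hni : i ∉ QW := by
      intro hi
      exact HA.loopless.irrefl _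
        (hQ.isClique ((mA _).mp hx) ((mW i).mp hi) (by simp) : HA.Adj (a i) (a i))
    calc QW.card ≤ (univ.erase i).card := by
          apply card_le_card
          intro z hz
          rw [mem_erase]
          exact ⟨fun h => hni (h ▸ hz), mem_univ _⟩
      _ = j - 1 := by rw [card_erase_of_mem (mem_univ _)]; simp
  have : 0 < j := Fin.pos i
  omega

theorem glue_compl (hA : HAᶜ.CliqueFree p) (hB : HBᶜ.CliqueFree q) (hp : 1 ≤ p) (hq : 1 ≤ q) :
    (glue HA HB a b)ᶜ.CliqueFree (p + q - 1) := by
  classical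
  intro Q hQ
  set QA := Q.toLeft with hQA
  set QB := Q.toRight.toLeft with hQB
  set QW := Q.toRight.toRight with hQW
  have hc1 := card_toLeft_add_card_toRight (u := Q)
  have hc2 := card_toLeft_add_card_toRight (u := Q.toRight)
  rw [← hQA] at hc1
  rw [← hQB, ← hQW] at hc2
  have hcard := hQ.card_eq
  have mA : ∀ x, x ∈ QA ↔ Sum.inl x ∈ Q := fun x => by simp [hQA]
  have mB : ∀ x, x ∈ QB ↔ Sum.inr (Sum.inl x) ∈ Q := fun x => by simp [hQB]
  have mW : ∀ x, x ∈ QW ↔ Sum.inr (Sum.inr x) ∈ Q := fun x => by simp [hQW]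
  have nadj : ∀ u ∈ Q, ∀ v ∈ Q, u ≠ v → ¬ (glue HA HB a b).Adj u v := by
    intro u hu v hv huv
    have := hQ.isClique hu hv huv
    rw [SimpleGraph.compl_adj] at this
    exact this.2
  have cA : HAᶜ.IsClique (QA : Set α) := by
    intro x hx y hy hxy
    rw [SimpleGraph.compl_adj]
    exact ⟨hxy, nadj _ ((mA x).mp hx) _ ((mA y).mp hy) (by simpa using hxy)⟩
  have cB : HBᶜ.IsClique (QB : Set β) := by
    intro x hx y hy hxy
    rw [SimpleGraph.compl_adj]
    exact ⟨hxy, nadj _ ((mB x).mp hx) _ ((mB y).mp hy) (by simpa using hxy)⟩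
  have lA := clique_card_lt hA cA
  have lB := clique_card_lt hB cB
  have hW : QW.card ≤ 1 := by
    rw [card_le_one]
    intro u hu v hv
    by_contra hne
    exact nadj _ ((mW u).mp hu) _ ((mW v).mp hv) (by simpa using hne) hne
  rcases QW.eq_empty_or_nonempty with hWe | ⟨i, hi⟩
  · rw [hWe] at hc2
    simp at hc2
    omega
  by_cases hai : a i ∈ QA
  · by_cases hbi : b i ∈ QB
    · exact nadj _ ((mA _).mp hai) _ ((mB _).mp hbi) (by simp) ⟨i, rfl, rfl⟩
    · have hcl : HBᶜ.IsClique ((insert (b i) QB : Finset β) : Set β) := by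
        rw [coe_insert]
        refine cB.insert (fun y hy hne => ?_)
        rw [SimpleGraph.compl_adj]
        refine ⟨hne, fun h => ?_⟩
        exact nadj _ ((mB y).mp hy) _ ((mW i).mp hi) (by simp) h.symm
      have := clique_card_lt hB hcl
      rw [card_insert_of_notMem hbi] at this
      omega
  · have hcl : HAᶜ.IsClique ((insert (a i) QA : Finset α) : Set α) := by
      rw [coe_insert]
      refine cA.insert (fun y hy hne => ?_)
      rw [SimpleGraph.compl_adj]
      refine ⟨hne, fun h => ?_⟩
      exact nadj _ ((mA y).mp hy) _ ((mW i).mp hi) (by simp) h.symm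
    have := clique_card_lt hA hcl
    rw [card_insert_of_notMem hai] at this
    omega

end

/-- a critical `(k,p)`-graph contains a `(k-2)`-clique, as a family -/
theorem exists_big {k p r : ℕ} (hk : 2 ≤ k) (hp : 2 ≤ p) (hr : IsRam k p r) :
    ∃ (HA : SimpleGraph (Fin (r - 1))) (a : Fin (k - 2) → Fin (r - 1)), KS k p HA ∧
      ∀ i i', i ≠ i' → HA.Adj (a i) (a i') := by
  classical
  obtain ⟨H, hH⟩ := hr.lower
  have hncf : ¬ H.CliqueFree (k - 1) := by
    intro hcf
    have h1 : KS (k - 1 + 1) p (dom H) := dom_KS hp ⟨hcf, hH.2⟩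
    rw [show k - 1 + 1 = k by omega] at h1
    have h2 := hr.card_lt h1
    have h3 := hr.pos
    simp at h2
    omega
  have hncf' : ∃ S, H.IsNClique (k - 1) S := by
    by_contra hcon
    exact hncf (fun S hS => hcon ⟨S, hS⟩)
  obtain ⟨S, hS⟩ := hncf'
  refine ⟨H, fun i => S.orderEmbOfFin hS.card_eq (Fin.castLE (by omega) i), hH, ?_⟩
  intro i i' hne
  apply hS.isClique
  · exact S.orderEmbOfFin_mem hS.card_eq _
  · exact S.orderEmbOfFin_mem hS.card_eq _
  · intro h
    apply hne
    have := (S.orderEmbOfFin hS.card_eq).injective h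
    exact Fin.castLE_injective _ this

/-- the cut lemma -/
theorem cut {V : Type*} [Fintype V] [DecidableEq V] (G : SimpleGraph V) {k s : ℕ} (hk : 2 ≤ k)
    (hG : KS k s G) (R : ℕ → ℕ) (hR : ∀ p, 2 ≤ p → IsRam k p (R p))
    (hs : 2 ≤ s) (hcrit : Fintype.card V + 1 = R s)
    (A B : Finset V) (hA : A.Nonempty) (hB : B.Nonempty) (hdis : Disjoint A B)
    (hno : ∀ x ∈ A, ∀ y ∈ B, ¬ G.Adj x y) :
    A.card + B.card + (k - 2) ≤ Fintype.card V := by
  classical
  have key : ∀ A : Finset V, A.Nonempty → ∃ p, 2 ≤ p ∧ A.card ≤ R p - 1 ∧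
      ∃ I ⊆ A, Gᶜ.IsNClique (p - 1) I := by
    intro A hA
    have hex : ∃ p, ∀ I ⊆ A, ¬ Gᶜ.IsNClique p I := by
      refine ⟨A.card + 1, fun I hI h => ?_⟩
      have := card_le_card hI
      rw [h.card_eq] at this
      omega
    obtain ⟨hspec, hmin⟩ : (∀ I ⊆ A, ¬ Gᶜ.IsNClique (Nat.find hex) I) ∧
        ∀ m < Nat.find hex, ¬ ∀ I ⊆ A, ¬ Gᶜ.IsNClique m I :=
      ⟨Nat.find_spec hex, fun m hm => Nat.find_min hex hm⟩
    set p := Nat.find hex with hp
    have hp2 : 2 ≤ p := by
      by_contra hlt
      have h01 : p = 0 ∨ p = 1 := by omega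
      obtain ⟨v, hv⟩ := hA
      rcases h01 with h | h
      · rw [h] at hspec
        exact hspec ∅ (by simp) (by simp [SimpleGraph.isNClique_iff])
      · rw [h] at hspec
        exact hspec {v} (by simpa using hv) (by simp [SimpleGraph.isNClique_iff])
    refine ⟨p, hp2, ?_, ?_⟩
    · have hKS : KS k p (SimpleGraph.comap (Subtype.val : {x // x ∈ A} → V) G) := by
        refine ⟨hG.1.comap (SimpleGraph.Embedding.comap ⟨_, Subtype.val_injective⟩ G).isContained, ?_⟩
        intro Q hQ
        apply hspec (Q.map ⟨Subtype.val, Subtype.val_injective⟩)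
        · intro x hx
          obtain ⟨y, hy, rfl⟩ := mem_map.mp hx
          exact y.2
        · refine ⟨?_, by rw [card_map, hQ.card_eq]⟩
          intro x hx y hy hxy
          simp only [coe_map, Function.Embedding.coeFn_mk, Set.mem_image, mem_coe] at hx hy
          obtain ⟨x', hx', rfl⟩ := hx
          obtain ⟨y', hy', rfl⟩ := hy
          have := hQ.isClique hx' hy' (fun h => hxy (by rw [h]))
          rw [SimpleGraph.compl_adj] at this ⊢
          exact ⟨hxy, fun h => this.2 h⟩
      have h1 := (hR p hp2).card_lt hKS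
      simp only [Fintype.card_coe] at h1
      omega
    · have h1 := hmin (p - 1) (by omega)
      by_contra hcon
      apply h1
      intro I hI hc
      exact hcon ⟨I, hI, hc⟩
  obtain ⟨p, hp2, hAc, IA, hIA, hIAc⟩ := key A hA
  obtain ⟨q, hq2, hBc, IB, hIB, hIBc⟩ := key B hB
  have hpq : p + q - 1 ≤ s := by
    have hcl : Gᶜ.IsClique ((IA ∪ IB : Finset V) : Set V) := by
      intro x hx y hy hxy
      rw [SimpleGraph.compl_adj]
      refine ⟨hxy, ?_⟩
      simp only [coe_union, Set.mem_union, mem_coe] at hx hy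
      rcases hx with hx | hx <;> rcases hy with hy | hy
      · have := hIAc.isClique hx hy hxy
        rw [SimpleGraph.compl_adj] at this
        exact this.2
      · exact hno x (hIA hx) y (hIB hy)
      · exact fun h => hno y (hIA hy) x (hIB hx) h.symm
      · have := hIBc.isClique hx hy hxy
        rw [SimpleGraph.compl_adj] at this
        exact this.2
    have h1 := clique_card_lt hG.2 hcl
    have hd : Disjoint IA IB := disjoint_of_subset_left hIA (disjoint_of_subset_right hIB hdis)
    rw [card_union_of_disjoint hd, hIAc.card_eq, hIBc.card_eq] at h1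
    omega
  obtain ⟨HA, a, hHA, ha⟩ := exists_big hk hp2 (hR p hp2)
  obtain ⟨HB, b, hHB, hb⟩ := exists_big hk hq2 (hR q hq2)
  have hF : KS k s (glue HA HB a b) :=
    KS.mono ⟨glue_cliqueFree hHA.1 hHB.1 ha hb (by omega),
      glue_compl hHA.2 hHB.2 (by omega) (by omega)⟩ hpq
  have h1 := (hR s hs).card_lt hF
  simp at h1
  omega

end Pool.Agent.RamseyHam
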