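import Mathlib

/-! Cycles as lists, and the four exchange arguments around a longest cycle. -/

namespace Pool.Agent.RamseyHam

variable {V : Type*} {G : SimpleGraph V}

/-- `l` is the vertex list of a walk from `a` to `b` -/
structure Seg (G : SimpleGraph V) (a : V) (l : List V) (b : V) : Prop where
  chain : l.IsChain G.Adj
  head : l.head? = some a
  last : l.getLast? = some b

theorem Seg.append {a b c d : V} {l m : List V} (h1 : Seg G a l b) (h2 : Seg G c m d)
    (h : G.Adj b c) : Seg G a (l ++ m) d := by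
  refine ⟨?_, ?_, ?_⟩
  · rw [List.isChain_append]
    refine ⟨h1.chain, h2.chain, ?_⟩
    intro x hx y hy
    rw [h1.last] at hx
    rw [h2.head] at hy
    simp at hx hy
    subst hx; subst hy; exact h
  · rw [List.head?_append, h1.head]; rfl
  · rw [List.getLast?_append, h2.last]; rfl

theorem Seg.reverse {a b : V} {l : List V} (h : Seg G a l b) : Seg G b l.reverse a := by
  refine ⟨?_, ?_, ?_⟩
  · rw [List.isChain_reverse]
    have : (fun a b => G.Adj b a) = G.Adj := by
      funext x y; exact propext ⟨fun h => h.symm, fun h => h.symm⟩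
    rw [this]; exact h.chain
  · rw [List.head?_reverse]; exact h.last
  · rw [List.getLast?_reverse]; exact h.head

theorem Seg.single (a : V) : Seg G a [a] a := ⟨by simp, rfl, rfl⟩

/-- `l` is the vertex list of a cycle -/
def Cyc (G : SimpleGraph V) (l : List V) : Prop :=
  l.Nodup ∧ 3 ≤ l.length ∧ ∃ a b, Seg G a l b ∧ G.Adj b a

/-- `c 0, …, c (m-1)` is a cycle -/
structure CF (G : SimpleGraph V) (c : ℕ → V) (m : ℕ) : Prop where
  three : 3 ≤ m
  inj : ∀ i j, i < m → j < m → c i = c j → i = j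
  adj : ∀ i, i + 1 < m → G.Adj (c i) (c (i + 1))
  close : G.Adj (c (m - 1)) (c 0)

/-- the segment `c a, …, c (b-1)` -/
def seg (c : ℕ → V) (a b : ℕ) : List V := (List.range' a (b - a)).map c

theorem mem_seg {c : ℕ → V} {a b : ℕ} {x : V} : x ∈ seg c a b ↔ ∃ i, a ≤ i ∧ i < b ∧ c i = x := by
  unfold seg
  rw [List.mem_map]
  constructor
  · rintro ⟨i, hi, rfl⟩
    rw [List.mem_range'_1] at hi
    exact ⟨i, hi.1, by omega, rfl⟩
  · rintro ⟨i, h1, h2, rfl⟩
    exact ⟨i, by rw [List.mem_range'_1]; omega, rfl⟩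

theorem seg_append {c : ℕ → V} {a b d : ℕ} (h1 : a ≤ b) (h2 : b ≤ d) :
    seg c a b ++ seg c b d = seg c a d := by
  unfold seg
  rw [← List.map_append]
  congr 1
  have := @List.range'_append a (b - a) (d - b) 1
  rw [one_mul, show a + (b - a) = b by omega, show (b - a) + (d - b) = d - a by omega] at this
  exact this

theorem seg_length {c : ℕ → V} {a b : ℕ} : (seg c a b).length = b - a := by simp [seg]

theorem seg_nodup {c : ℕ → V} {m a b : ℕ} (hc : CF G c m) (hb : b ≤ m) : (seg c a b).Nodup := by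
  unfold seg
  apply List.Nodup.map_on
  · intro x hx y hy hxy
    rw [List.mem_range'_1] at hx hy
    exact hc.inj x y (by omega) (by omega) hxy
  · exact List.nodup_range'

theorem seg_Seg {c : ℕ → V} {m a b : ℕ} (hc : CF G c m) (hab : a < b) (hb : b ≤ m) :
    Seg G (c a) (seg c a b) (c (b - 1)) := by
  refine ⟨?_, ?_, ?_⟩
  · unfold seg
    rw [List.isChain_map]
    rw [List.isChain_iff_getElem]
    intro i hi
    simp only [List.length_range'] at hi
    simp only [List.getElem_range', one_mul]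
    have := hc.adj (a + i) (by omega)
    rw [show a + (i + 1) = a + i + 1 by omega]
    exact this
  · unfold seg
    obtain ⟨n, hn⟩ : ∃ n, b - a = n + 1 := ⟨b - a - 1, by omega⟩
    rw [hn, List.range'_succ]
    rfl
  · unfold seg
    obtain ⟨n, hn⟩ : ∃ n, b - a = n + 1 := ⟨b - a - 1, by omega⟩
    rw [hn, List.range'_concat]
    simp
    congr 1
    omega

/-- a longer cycle contradicts maximality -/
theorem no_long {c : ℕ → V} {m : ℕ} (hc : CF G c m) (hmax : ∀ l, Cyc G l → l.length ≤ m)
    {w : List V} (hw : w ≠ []) (hwn : w.Nodup) (hwd : ∀ x ∈ w, ∀ i < m, c i ≠ x)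
    {L : List V} {a b : V} (hperm : L.Perm (seg c 0 m ++ w)) (hL : Seg G a L b)
    (hadj : G.Adj b a) : False := by
  have hlen : L.length = m + w.length := by
    rw [hperm.length_eq, List.length_append, seg_length]; simp
  have hwl : 0 < w.length := List.length_pos_of_ne_nil hw
  have hnod : L.Nodup := by
    rw [hperm.nodup_iff, List.nodup_append]
    refine ⟨seg_nodup hc le_rfl, hwn, ?_⟩
    intro x hx y hy hxy
    obtain ⟨i, -, hi, rfl⟩ := mem_seg.mp hx
    exact hwd y hy i hi hxy
  have := hmax L ⟨hnod, by have := hc.three; omega, a, b, hL, hadj⟩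
  omega

section exchange

variable [DecidableEq V] {c : ℕ → V} {m : ℕ} {H : Set V}

/-- the vertex `c i` has a neighbour in `H` -/
def TT (G : SimpleGraph V) (c : ℕ → V) (H : Set V) (i : ℕ) : Prop := ∃ x ∈ H, G.Adj (c i) x

/-- any two vertices of `H` are joined inside `H` -/
def HConn (G : SimpleGraph V) (H : Set V) : Prop :=
  ∀ x ∈ H, ∀ y ∈ H, ∃ w, Seg G x w y ∧ w.Nodup ∧ ∀ z ∈ w, z ∈ H

omit [DecidableEq V] in
theorem E0 (hc : CF G c m) (hmax : ∀ l, Cyc G l → l.length ≤ m) (hH : HConn G H)
    (hoff : ∀ x ∈ H, ∀ i < m, c i ≠ x) {i : ℕ} (hi : i + 1 < m) (h1 : TT G c H i)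
    (h2 : TT G c H (i + 1)) : False := by
  obtain ⟨x, hx, hix⟩ := h1
  obtain ⟨y, hy, hiy⟩ := h2
  obtain ⟨w, hw, hwn, hwH⟩ := hH x hx y hy
  have hwne : w ≠ [] := by rintro rfl; simpa using hw.head
  have s1 := seg_Seg hc hi le_rfl
  have s2 := seg_Seg hc (show 0 < i + 1 by omega) (show i + 1 ≤ m by omega)
  rw [show i + 1 - 1 = i by omega] at s2
  refine no_long hc hmax hwne hwn (fun x hx => hoff x (hwH x hx)) ?_
    ((s1.append s2 hc.close).append hw hix) hiy.symm
  rw [← seg_append (show 0 ≤ i + 1 by omega) (show i + 1 ≤ m by omega)]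
  exact List.Perm.append_right _ List.perm_append_comm

theorem E1 (hc : CF G c m) (hmax : ∀ l, Cyc G l → l.length ≤ m) (hH : HConn G H)
    (hoff : ∀ x ∈ H, ∀ i < m, c i ≠ x) {i j : ℕ} (hij : i < j) (hj : j + 1 < m)
    (h1 : TT G c H i) (h2 : TT G c H j) (hadj : G.Adj (c (i + 1)) (c (j + 1))) : False := by
  obtain ⟨x, hx, hix⟩ := h1
  obtain ⟨y, hy, hiy⟩ := h2
  obtain ⟨w, hw, hwn, hwH⟩ := hH x hx y hy
  have hwne : w ≠ [] := by rintro rfl; simpa using hw.head
  have s0 := (seg_Seg hc (show i + 1 < j + 1 by omega) (show j + 1 ≤ m by omega)).reverse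
  have s1 := seg_Seg hc hj le_rfl
  have s2 := seg_Seg hc (show 0 < i + 1 by omega) (show i + 1 ≤ m by omega)
  rw [show i + 1 - 1 = i by omega] at s2
  rw [show j + 1 - 1 = j by omega] at s0
  refine no_long hc hmax hwne hwn (fun x hx => hoff x (hwH x hx)) ?_
    ((s0.append (s1.append s2 hc.close) hadj).append hw hix) hiy.symm
  rw [← seg_append (show 0 ≤ i + 1 by omega) (show i + 1 ≤ m by omega),
    ← seg_append (show i + 1 ≤ j + 1 by omega) (show j + 1 ≤ m by omega), List.perm_iff_count]
  intro z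
  simp only [List.count_append, List.count_reverse]
  omega

theorem E2 (hc : CF G c m) (hmax : ∀ l, Cyc G l → l.length ≤ m) (hH : HConn G H)
    (hoff : ∀ x ∈ H, ∀ i < m, c i ≠ x) {i j : ℕ} (hij : i < j) (hj : j + 1 < m)
    (h1 : TT G c H i) (h2 : TT G c H j) {u : V} (hu : ∀ i < m, c i ≠ u)
    (ha1 : G.Adj u (c (i + 1))) (ha2 : G.Adj u (c (j + 1))) : False := by
  by_cases huH : u ∈ H
  · exact E0 hc hmax hH hoff (show i + 1 < m by omega) h1 ⟨u, huH, ha1.symm⟩
  obtain ⟨x, hx, hix⟩ := h1
  obtain ⟨y, hy, hiy⟩ := h2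
  obtain ⟨w, hw, hwn, hwH⟩ := hH x hx y hy
  have s0 := (seg_Seg hc (show i + 1 < j + 1 by omega) (show j + 1 ≤ m by omega)).reverse
  have s1 := seg_Seg hc hj le_rfl
  have s2 := seg_Seg hc (show 0 < i + 1 by omega) (show i + 1 ≤ m by omega)
  rw [show i + 1 - 1 = i by omega] at s2
  rw [show j + 1 - 1 = j by omega] at s0
  refine no_long hc hmax (w := u :: w) (by simp) ?_ ?_ ?_
    (((s0.append (Seg.single u) ha1.symm).append (s1.append s2 hc.close) ha2).append hw hix)
    hiy.symm
  · rw [List.nodup_cons]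
    exact ⟨fun h => huH (hwH u h), hwn⟩
  · intro z hz
    rcases List.mem_cons.mp hz with rfl | hz
    · exact hu
    · exact hoff z (hwH z hz)
  · rw [← seg_append (show 0 ≤ i + 1 by omega) (show i + 1 ≤ m by omega),
      ← seg_append (show i + 1 ≤ j + 1 by omega) (show j + 1 ≤ m by omega), List.perm_iff_count]
    intro z
    simp only [List.count_append, List.count_reverse, List.count_cons, List.count_nil]
    omega

theorem E3 (hc : CF G c m) (hmax : ∀ l, Cyc G l → l.length ≤ m) (hH : HConn G H)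
    (hoff : ∀ x ∈ H, ∀ i < m, c i ≠ x) {a i j : ℕ} (hai : a < i) (hij : i < j) (hj : j + 1 < m)
    (h1 : TT G c H i) (h2 : TT G c H j) (ha1 : G.Adj (c a) (c (i + 1)))
    (ha2 : G.Adj (c (a + 1)) (c (j + 1))) : False := by
  obtain ⟨x, hx, hix⟩ := h1
  obtain ⟨y, hy, hiy⟩ := h2
  obtain ⟨w, hw, hwn, hwH⟩ := hH y hy x hx
  have hwne : w ≠ [] := by rintro rfl; simpa using hw.head
  have s0 := seg_Seg hc (show i + 1 < j + 1 by omega) (show j + 1 ≤ m by omega)
  have s3 := (seg_Seg hc (show a + 1 < i + 1 by omega) (show i + 1 ≤ m by omega)).reverse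
  have s1 := seg_Seg hc hj le_rfl
  have s2 := seg_Seg hc (show 0 < a + 1 by omega) (show a + 1 ≤ m by omega)
  rw [show i + 1 - 1 = i by omega] at s3
  rw [show a + 1 - 1 = a by omega] at s2
  rw [show j + 1 - 1 = j by omega] at s0
  refine no_long hc hmax hwne hwn (fun x hx => hoff x (hwH x hx)) ?_
    (((s0.append hw hiy).append s3 hix.symm).append (s1.append s2 hc.close) ha2) ha1
  rw [← seg_append (show 0 ≤ a + 1 by omega) (show a + 1 ≤ m by omega),
    ← seg_append (show a + 1 ≤ i + 1 by omega) (show i + 1 ≤ m by omega),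
    ← seg_append (show i + 1 ≤ j + 1 by omega) (show j + 1 ≤ m by omega), List.perm_iff_count]
  intro z
  simp only [List.count_append, List.count_reverse]
  omega

end exchange

/-- rotation of a cyclic function -/
theorem CF.rotate {c : ℕ → V} {m : ℕ} (hc : CF G c m) (r : ℕ) :
    CF G (fun i => c ((i + r) % m)) m := by
  have h3 := hc.three
  have hpos : 0 < m := by omega
  have step : ∀ x : ℕ, G.Adj (c (x % m)) (c ((x + 1) % m)) := by
    intro x
    have hx : x % m < m := Nat.mod_lt _ hpos
    rcases Nat.lt_or_ge (x % m + 1) m with h | h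
    · have : (x + 1) % m = x % m + 1 := by
        rw [Nat.add_mod, Nat.mod_eq_of_lt (show 1 < m by omega), Nat.mod_eq_of_lt h]
      rw [this]
      exact hc.adj _ h
    · have h' : x % m = m - 1 := by omega
      have : (x + 1) % m = 0 := by
        rw [Nat.add_mod, Nat.mod_eq_of_lt (show 1 < m by omega), h', show m - 1 + 1 = m by omega,
          Nat.mod_self]
      rw [this, h']
      exact hc.close
  refine ⟨h3, ?_, ?_, ?_⟩
  · intro i j hi hj hij
    have h := hc.inj _ _ (Nat.mod_lt _ hpos) (Nat.mod_lt _ hpos) hij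
    have h' : i % m = j % m := Nat.ModEq.add_right_cancel' r h
    rwa [Nat.mod_eq_of_lt hi, Nat.mod_eq_of_lt hj] at h'
  · intro i hi
    have := step (i + r)
    rw [show i + r + 1 = i + 1 + r by ring] at this
    exact this
  · have := step (m - 1 + r)
    rw [show m - 1 + r + 1 = r + m by omega, Nat.add_mod_right] at this
    simpa using this

/-- a cycle list gives a cyclic function -/
theorem Cyc.toCF {l : List V} (hl : Cyc G l) : ∃ c : ℕ → V, CF G c l.length ∧
    ∀ x, x ∈ l ↔ ∃ i < l.length, c i = x := by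
  obtain ⟨hn, h3, a, b, hs, hadj⟩ := hl
  refine ⟨fun i => l.getD i a, ⟨h3, ?_, ?_, ?_⟩, ?_⟩
  · intro i j hi hj hij
    simp only [List.getD_eq_getElem _ _ hi, List.getD_eq_getElem _ _ hj] at hij
    exact (List.Nodup.getElem_inj_iff hn).mp hij
  · intro i hi
    simp only [List.getD_eq_getElem _ _ hi, List.getD_eq_getElem _ _ (show i < l.length by omega)]
    exact List.isChain_iff_getElem.mp hs.chain i hi
  · have h0 : l.getD 0 a = a := by
      rw [List.getD_eq_getElem _ _ (by omega)]
      have := hs.head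
      rw [List.head?_eq_getElem?, List.getElem?_eq_getElem (by omega)] at this
      simpa using this
    have h1 : l.getD (l.length - 1) a = b := by
      rw [List.getD_eq_getElem _ _ (by omega)]
      have := hs.last
      rw [List.getLast?_eq_getElem?, List.getElem?_eq_getElem (by omega)] at this
      simpa using this
    simp only [h0, h1]
    exact hadj
  · intro x
    rw [List.mem_iff_getElem]
    constructor
    · rintro ⟨i, hi, rfl⟩
      exact ⟨i, hi, List.getD_eq_getElem _ _ hi⟩
    · rintro ⟨i, hi, rfl⟩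
      exact ⟨i, hi, (List.getD_eq_getElem _ _ hi).symm⟩

end Pool.Agent.RamseyHam
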