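import Mathlib

/-! A decreasing staircase of finite sets has few steps with two or more elements. -/

namespace Pool.Agent.RamseyHam

open Finset

/-- the remaining budget after step `b` -/
noncomputable def psi (I : Finset ℕ) (J : ℕ → Finset ℕ) : ℕ → ℕ
  | 0 => I.card - 1
  | b + 1 => if J b = ∅ then I.card - 1 else (I.filter (fun i => ∀ j ∈ J b, i < j)).card

theorem stair_aux (I : Finset ℕ) (J : ℕ → Finset ℕ) (hI : I.Nonempty) (b : ℕ)
    (hJ : ∀ a < b, J a ⊆ I)
    (hst : ∀ a, a + 1 < b → ∀ i ∈ J a, ∀ j ∈ J (a + 1), j ≤ i) :
    b + psi I J b + 1 ≤ (∑ a ∈ range b, (I.filter (fun i => J a ⊆ {i})).card) + I.card := by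
  have hIc : 0 < I.card := card_pos.mpr hI
  induction b with
  | zero => simp [psi]; omega
  | succ b ih =>
    have ih' := ih (fun a ha => hJ a (by omega)) (fun a ha => hst a (by omega))
    rw [sum_range_succ]
    suffices h : 1 + psi I J (b + 1) ≤ (I.filter (fun i => J b ⊆ {i})).card + psi I J b by omega
    by_cases hb : J b = ∅
    · have h1 : psi I J (b + 1) = I.card - 1 := by simp [psi, hb]
      have h2 : (I.filter (fun i => J b ⊆ {i})) = I := by simp [hb]
      rw [h1, h2]
      omega
    · have h1 : psi I J (b + 1) = (I.filter (fun i => ∀ j ∈ J b, i < j)).card := by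
        simp [psi, hb]
      rw [h1]
      have hbne : (J b).Nonempty := nonempty_iff_ne_empty.mpr hb
      set A := I.filter (fun i => ∀ j ∈ J b, i < j) with hA
      -- elements that `psi b` certainly counts
      have hprev : ∀ B : Finset ℕ, B ⊆ I → (∃ v ∈ J b, ∀ x ∈ B, x < v) → B.card ≤ psi I J b := by
        intro B hBI ⟨v, hv, hBv⟩
        have hvI : v ∈ I := hJ b (by omega) hv
        have hBc : B.card ≤ I.card - 1 := by
          have : B ⊆ I.erase v := by
            intro x hx
            rw [mem_erase]
            exact ⟨fun h => by have := hBv x hx; omega, hBI hx⟩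
          have := card_le_card this
          rwa [card_erase_of_mem hvI] at this
        cases b with
        | zero => simpa [psi] using hBc
        | succ b =>
          by_cases hb' : J b = ∅
          · simpa [psi, hb'] using hBc
          · have : psi I J (b + 1) = (I.filter (fun i => ∀ j ∈ J b, i < j)).card := by
              simp [psi, hb']
            rw [this]
            apply card_le_card
            intro x hx
            rw [mem_filter]
            refine ⟨hBI hx, fun j hj => ?_⟩
            have h3 := hst b (by omega) j hj v hv
            have h4 := hBv x hx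
            omega
      rcases Nat.lt_or_ge 1 (J b).card with h2 | h2
      · -- at least two elements
        set u := (J b).min' hbne with hu
        have huJ : u ∈ J b := min'_mem _ _
        obtain ⟨v, hv, hvu⟩ := exists_mem_ne h2 u
        have huv : u < v := lt_of_le_of_ne (min'_le _ _ hv) (Ne.symm hvu)
        have huA : u ∉ A := by
          rw [hA, mem_filter]
          rintro ⟨-, h⟩
          exact absurd (h u huJ) (lt_irrefl _)
        have h5 := hprev (insert u A) (by
          intro x hx
          rcases mem_insert.mp hx with rfl | hx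
          · exact hJ b (by omega) huJ
          · exact (mem_filter.mp hx).1) ⟨v, hv, by
            intro x hx
            rcases mem_insert.mp hx with rfl | hx
            · exact huv
            · exact (mem_filter.mp hx).2 v hv⟩
        rw [card_insert_of_notMem huA] at h5
        omega
      · have h3 : (J b).card = 1 := by
          have := card_pos.mpr hbne
          omega
        obtain ⟨i, hi⟩ := card_eq_one.mp h3
        have hiJ : i ∈ J b := by rw [hi]; simp
        have hiI : i ∈ I := hJ b (by omega) hiJ
        have h4 : 1 ≤ (I.filter (fun i => J b ⊆ {i})).card := by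
          rw [Nat.one_le_iff_ne_zero, ← Nat.pos_iff_ne_zero, card_pos]
          exact ⟨i, mem_filter.mpr ⟨hiI, by rw [hi]⟩⟩
        have h5 := hprev A (filter_subset _ _) ⟨i, hiJ, fun x hx => (mem_filter.mp hx).2 i hiJ⟩
        omega

theorem stair (I : Finset ℕ) (J : ℕ → Finset ℕ) (hI : I.Nonempty) (b : ℕ)
    (hJ : ∀ a < b, J a ⊆ I)
    (hst : ∀ a, a + 1 < b → ∀ i ∈ J a, ∀ j ∈ J (a + 1), j ≤ i) :
    b + 1 ≤ (∑ i ∈ I, ((range b).filter (fun a => J a ⊆ {i})).card) + I.card := by
  have h := stair_aux I J hI b hJ hst
  have h2 : (∑ a ∈ range b, (I.filter (fun i => J a ⊆ {i})).card)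
      = ∑ i ∈ I, ((range b).filter (fun a => J a ⊆ {i})).card := by
    simp only [card_filter]
    exact sum_comm
  omega

end Pool.Agent.RamseyHam
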