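import Mathlib

/-! Ramsey's theorem with the Erdős–Szekeres bound, on subsets. -/

namespace Pool.Agent.RamseyHam

open Finset

theorem upper_aux {V : Type*} [DecidableEq V] (G : SimpleGraph V) :
    ∀ (n k l : ℕ), k + l = n → ∀ S : Finset V, (k + l).choose k ≤ S.card →
      (∃ K ⊆ S, G.IsNClique (k + 1) K) ∨ (∃ I ⊆ S, Gᶜ.IsNClique (l + 1) I) := by
  classical
  intro n
  induction n with
  | zero =>
    intro k l hkl S hS
    have hk : k = 0 := by omega
    have hl : l = 0 := by omega
    subst hk; subst hl
    have : 0 < S.card := by simpa using hS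
    obtain ⟨v, hv⟩ := Finset.card_pos.mp this
    left
    exact ⟨{v}, by simpa using hv, by simp [SimpleGraph.isNClique_iff]⟩
  | succ n ih =>
    intro k l hkl S hS
    have hpos : 0 < S.card := lt_of_lt_of_le (Nat.choose_pos (by omega)) hS
    obtain ⟨v, hv⟩ := Finset.card_pos.mp hpos
    rcases Nat.eq_zero_or_pos k with hk | hk
    · subst hk
      left
      exact ⟨{v}, by simpa using hv, by simp [SimpleGraph.isNClique_iff]⟩
    rcases Nat.eq_zero_or_pos l with hl | hl
    · subst hl
      right
      exact ⟨{v}, by simpa using hv, by simp [SimpleGraph.isNClique_iff]⟩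
    obtain ⟨k, rfl⟩ : ∃ k', k = k' + 1 := ⟨k - 1, by omega⟩
    obtain ⟨l, rfl⟩ : ∃ l', l = l' + 1 := ⟨l - 1, by omega⟩
    set A := (S.erase v).filter (fun u => G.Adj v u) with hA
    set B := (S.erase v).filter (fun u => ¬ G.Adj v u) with hB
    have hAB : A.card + B.card = (S.erase v).card :=
      Finset.card_filter_add_card_filter_not (s := S.erase v) (fun u => G.Adj v u)
    have hSe : (S.erase v).card + 1 = S.card := Finset.card_erase_add_one hv
    have hch : (k + 1 + (l + 1)).choose (k + 1)
        = (k + (l + 1)).choose k + (k + 1 + l).choose (k + 1) := by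
      have : k + 1 + (l + 1) = (k + l + 1) + 1 := by ring
      rw [this, Nat.choose_succ_succ, show k + (l + 1) = k + l + 1 by ring,
        show k + 1 + l = k + l + 1 by ring]
    rcases Nat.lt_or_ge A.card ((k + (l + 1)).choose k) with h1 | h1
    · have h2 : (k + 1 + l).choose (k + 1) ≤ B.card := by omega
      rcases ih (k + 1) l (by omega) B h2 with ⟨K, hK, hc⟩ | ⟨I, hI, hc⟩
      · left
        exact ⟨K, fun x hx => (Finset.mem_erase.mp (Finset.mem_filter.mp (hK hx)).1).2, hc⟩
      · right
        refine ⟨insert v I, ?_, ?_⟩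
        · intro x hx
          rcases Finset.mem_insert.mp hx with rfl | hx
          · exact hv
          · exact (Finset.mem_erase.mp (Finset.mem_filter.mp (hI hx)).1).2
        · apply hc.insert
          intro b hb
          have := Finset.mem_filter.mp (hI hb)
          rw [SimpleGraph.compl_adj]
          exact ⟨fun h => (Finset.mem_erase.mp this.1).1 h.symm, this.2⟩
    · rcases ih k (l + 1) (by omega) A h1 with ⟨K, hK, hc⟩ | ⟨I, hI, hc⟩
      · left
        refine ⟨insert v K, ?_, ?_⟩
        · intro x hx
          rcases Finset.mem_insert.mp hx with rfl | hx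
          · exact hv
          · exact (Finset.mem_erase.mp (Finset.mem_filter.mp (hK hx)).1).2
        · apply hc.insert
          intro b hb
          exact (Finset.mem_filter.mp (hK hb)).2
      · right
        exact ⟨I, fun x hx => (Finset.mem_erase.mp (Finset.mem_filter.mp (hI hx)).1).2, hc⟩

/-- Erdős–Szekeres: a set of `C(k+l-2, k-1)` vertices contains a `k`-clique or an independent
`l`-set. -/
theorem upper {V : Type*} [DecidableEq V] (G : SimpleGraph V) {k l : ℕ} (hk : 1 ≤ k) (hl : 1 ≤ l)
    (S : Finset V) (hS : (k + l - 2).choose (k - 1) ≤ S.card) :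
    (∃ K ⊆ S, G.IsNClique k K) ∨ (∃ I ⊆ S, Gᶜ.IsNClique l I) := by
  obtain ⟨k, rfl⟩ : ∃ k', k = k' + 1 := ⟨k - 1, by omega⟩
  obtain ⟨l, rfl⟩ : ∃ l', l = l' + 1 := ⟨l - 1, by omega⟩
  have h : k + 1 + (l + 1) - 2 = k + l := by omega
  rw [h] at hS
  exact upper_aux G (k + l) k l rfl S hS

end Pool.Agent.RamseyHam
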