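import Mathlib
import Pool.Agent.Lib.MP_078aef_co.Cyc
import Pool.Agent.Lib.MP_078aef_co.Stair
import Pool.Agent.Lib.MP_078aef_co.Cut
import Pool.Agent.Lib.MP_078aef_co.Upper

/-! The counting argument around a longest cycle. -/

namespace Pool.Agent.RamseyHam

open Finset

/-- some block of length `m/(t+1)` avoids a set of `t` indices -/
theorem window (m : ℕ) (P : ℕ → Prop) [DecidablePred P] :
    ∃ r, ∀ i < m / (((range m).filter P).card + 1), ¬ P ((i + r) % m) := by
  set t := ((range m).filter P).card with ht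
  set b := m / (t + 1) with hb
  by_contra hcon
  have hcon : ∀ r, ∃ i < b, P ((i + r) % m) := by
    intro r
    by_contra h
    exact hcon ⟨r, fun i hi hP => h ⟨i, hi, hP⟩⟩
  have hbt : b * (t + 1) ≤ m := Nat.div_mul_le_self m (t + 1)
  choose f hf1 hf2 using fun jj : ℕ => hcon (b * jj)
  have hlt : ∀ jj < t + 1, f jj + b * jj < m := by
    intro jj hjj
    have h1 : b * jj + b ≤ b * (t + 1) := by
      calc b * jj + b = b * (jj + 1) := by ring
        _ ≤ b * (t + 1) := Nat.mul_le_mul_left b hjj
    have := hf1 jj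
    omega
  have hcard : (range (t + 1)).card ≤ ((range m).filter P).card := by
    apply card_le_card_of_injOn (fun jj => f jj + b * jj)
    · intro jj hjj
      have hjj' : jj < t + 1 := by simpa using hjj
      have h1 := hlt jj hjj'
      have h2 := hf2 jj
      rw [Nat.mod_eq_of_lt h1] at h2
      simp only [coe_filter, mem_range, Set.mem_setOf_eq]
      exact ⟨h1, h2⟩
    · intro x hx y hy hxy
      have hx1 := hf1 x
      have hy1 := hf1 y
      have hbpos : 0 < b := by omega
      have h1 : (f x + b * x) / b = x := by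
        rw [Nat.add_mul_div_left _ _ hbpos, Nat.div_eq_of_lt hx1, zero_add]
      have h2 : (f y + b * y) / b = y := by
        rw [Nat.add_mul_div_left _ _ hbpos, Nat.div_eq_of_lt hy1, zero_add]
      have hxy' : f x + b * x = f y + b * y := hxy
      rw [← h1, ← h2, hxy']
  rw [card_range] at hcard
  omega

variable {V : Type*} [Fintype V] [DecidableEq V] {G : SimpleGraph V}

/-- the counting part: a longest cycle `c` of length `m`, with window of length `b` free of `T` -/
theorem count_part {k s m b : ℕ} {c : ℕ → V} {H : Set V} (hG : KS k s G) (hk : 1 ≤ k)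
    (hc : CF G c m) (hmax : ∀ l, Cyc G l → l.length ≤ m) (hH : HConn G H)
    (hoff : ∀ x ∈ H, ∀ i < m, c i ≠ x) {x0 : V} (hx0 : x0 ∈ H)
    (hb : b ≤ m) (hfree : ∀ i < b, ¬ TT G c H i)
    (I : Finset ℕ) (hI : ∀ i, i ∈ I ↔ i + 1 < m ∧ TT G c H i) (hIne : I.Nonempty) :
    I.card + 2 ≤ s ∧ b + (Fintype.card V - m) + 1 ≤
      I.card * ((k + (s - I.card + 1) - 2).choose (k - 1) - 1) + I.card := by
  classical
  -- the vertices off the cycle
  set off : Finset V := univ.filter (fun v => ∀ i < m, c i ≠ v) with hoffdef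
  have hoffc : off.card = Fintype.card V - m := by
    have h1 : off = univ \ (range m).image c := by
      ext v
      simp only [hoffdef, mem_filter, mem_univ, true_and, mem_sdiff, mem_image, mem_range]
      constructor
      · rintro h ⟨i, hi, hiv⟩; exact h i hi hiv
      · intro h i hi hiv; exact h ⟨i, hi, hiv⟩
    rw [h1, card_sdiff_of_subset (subset_univ _), card_image_of_injOn, card_range, card_univ]
    intro i hi j hj hij
    exact hc.inj i j (by simpa using hi) (by simpa using hj) hij
  -- the successors are independent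
  have hindep : ∀ i ∈ I, ∀ j ∈ I, i ≠ j → Gᶜ.Adj (c (i + 1)) (c (j + 1)) := by
    have key : ∀ i ∈ I, ∀ j ∈ I, i < j → ¬ G.Adj (c (i + 1)) (c (j + 1)) := by
      intro i hi j hj hij hadj
      exact E1 hc hmax hH hoff hij ((hI j).mp hj).1 ((hI i).mp hi).2 ((hI j).mp hj).2 hadj
    intro i hi j hj hne
    rw [SimpleGraph.compl_adj]
    refine ⟨?_, ?_⟩
    · intro h
      have := hc.inj _ _ ((hI i).mp hi).1 ((hI j).mp hj).1 h
      omega
    · rcases Nat.lt_or_gt_of_ne hne with h | h
      · exact key i hi j hj h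
      · exact fun h' => key j hj i hi h h'.symm
  have hsinj : ∀ S ⊆ I, (S.image (fun i => c (i + 1))).card = S.card := by
    intro S hS
    apply card_image_of_injOn
    intro i hi j hj hij
    have := hc.inj _ _ ((hI i).mp (hS hi)).1 ((hI j).mp (hS hj)).1 hij
    omega
  have hclique : ∀ S ⊆ I, Gᶜ.IsClique ((S.image (fun i => c (i + 1)) : Finset V) : Set V) := by
    intro S hS x hx y hy hxy
    simp only [coe_image, Set.mem_image, mem_coe] at hx hy
    obtain ⟨i, hi, rfl⟩ := hx
    obtain ⟨j, hj, rfl⟩ := hy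
    exact hindep i (hS hi) j (hS hj) (fun h => hxy (by rw [h]))
  have hq : I.card + 2 ≤ s := by
    have hcl : Gᶜ.IsClique ((insert x0 (I.image (fun i => c (i + 1))) : Finset V) : Set V) := by
      rw [coe_insert]
      refine (hclique I Subset.rfl).insert ?_
      intro y hy hne
      simp only [coe_image, Set.mem_image, mem_coe] at hy
      obtain ⟨i, hi, rfl⟩ := hy
      rw [SimpleGraph.compl_adj]
      refine ⟨hne, fun hadj => ?_⟩
      exact E0 hc hmax hH hoff ((hI i).mp hi).1 ((hI i).mp hi).2 ⟨x0, hx0, hadj.symm⟩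
    have h1 := clique_card_lt hG.2 hcl
    rw [card_insert_of_notMem, hsinj I Subset.rfl] at h1
    · omega
    · intro hmem
      obtain ⟨i, hi, hix⟩ := mem_image.mp hmem
      exact hoff x0 hx0 (i + 1) ((hI i).mp hi).1 hix
  refine ⟨hq, ?_⟩
  -- neighbour index sets
  set Jv : V → Finset ℕ := fun v => I.filter (fun i => G.Adj v (c (i + 1))) with hJv
  have hbI : ∀ i ∈ I, b ≤ i := by
    intro i hi
    by_contra hlt
    exact hfree i (by omega) ((hI i).mp hi).2
  have hstair := stair I (fun a => Jv (c a)) hIne b (fun a _ => filter_subset _ _) (by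
    intro a ha i hi j hj
    by_contra hlt
    have hlt : i < j := by omega
    obtain ⟨hiI, hiadj⟩ := mem_filter.mp hi
    obtain ⟨hjI, hjadj⟩ := mem_filter.mp hj
    exact E3 hc hmax hH hoff (show a < i by have := hbI i hiI; omega) hlt ((hI j).mp hjI).1
      ((hI i).mp hiI).2 ((hI j).mp hjI).2 hiadj hjadj)
  have hoffJ : off.card ≤ ∑ i ∈ I, (off.filter (fun v => Jv v ⊆ {i})).card := by
    have h1 : ∀ v ∈ off, 1 ≤ (I.filter (fun i => Jv v ⊆ {i})).card := by
      intro v hv
      have hv' : ∀ i < m, c i ≠ v := (mem_filter.mp hv).2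
      rw [Nat.one_le_iff_ne_zero, ← Nat.pos_iff_ne_zero, card_pos]
      rcases (Jv v).eq_empty_or_nonempty with he | ⟨i, hi⟩
      · obtain ⟨i, hi⟩ := hIne
        exact ⟨i, mem_filter.mpr ⟨hi, by rw [he]; simp⟩⟩
      · refine ⟨i, mem_filter.mpr ⟨(mem_filter.mp hi).1, ?_⟩⟩
        intro j hj
        rw [mem_singleton]
        by_contra hne
        obtain ⟨hiI, hiadj⟩ := mem_filter.mp hi
        obtain ⟨hjI, hjadj⟩ := mem_filter.mp hj
        rcases Nat.lt_or_gt_of_ne hne with h | h
        · exact E2 hc hmax hH hoff h ((hI i).mp hiI).1 ((hI j).mp hjI).2 ((hI i).mp hiI).2 hv'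
            hjadj hiadj
        · exact E2 hc hmax hH hoff h ((hI j).mp hjI).1 ((hI i).mp hiI).2 ((hI j).mp hjI).2 hv'
            hiadj hjadj
    calc off.card = ∑ v ∈ off, 1 := by simp
      _ ≤ ∑ v ∈ off, (I.filter (fun i => Jv v ⊆ {i})).card := sum_le_sum h1
      _ = ∑ i ∈ I, (off.filter (fun v => Jv v ⊆ {i})).card := by
          simp only [card_filter]
          exact sum_comm
  -- the sets `L i`
  set L : ℕ → Finset V := fun i =>
    ((range b).filter (fun a => Jv (c a) ⊆ {i})).image c ∪ off.filter (fun v => Jv v ⊆ {i}) with hL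
  have hLc : ∀ i, (L i).card = ((range b).filter (fun a => Jv (c a) ⊆ {i})).card
      + (off.filter (fun v => Jv v ⊆ {i})).card := by
    intro i
    rw [hL]
    simp only
    rw [card_union_of_disjoint, card_image_of_injOn]
    · intro x hx y hy hxy
      simp only [coe_filter, mem_range, Set.mem_setOf_eq] at hx hy
      exact hc.inj x y (by omega) (by omega) hxy
    · rw [disjoint_left]
      intro v hv hv'
      obtain ⟨a, ha, rfl⟩ := mem_image.mp hv
      have ha' : a < b := by simpa using (mem_filter.mp ha).1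
      have := (mem_filter.mp (mem_filter.mp hv').1).2
      exact this a (by omega) rfl
  have hLJ : ∀ i, ∀ v ∈ L i, Jv v ⊆ {i} := by
    intro i v hv
    rcases mem_union.mp hv with hv | hv
    · obtain ⟨a, ha, rfl⟩ := mem_image.mp hv
      exact (mem_filter.mp ha).2
    · exact (mem_filter.mp hv).2
  have hLR : ∀ i, ∀ v ∈ L i, ∀ j ∈ I, v ≠ c (j + 1) := by
    intro i v hv j hj h
    rcases mem_union.mp hv with hv | hv
    · obtain ⟨a, ha, rfl⟩ := mem_image.mp hv
      have ha' : a < b := by simpa using (mem_filter.mp ha).1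
      have h1 := hc.inj _ _ (show a < m by omega) ((hI j).mp hj).1 h
      have h2 := hbI j hj
      omega
    · have := (mem_filter.mp (mem_filter.mp hv).1).2
      exact this (j + 1) ((hI j).mp hj).1 h.symm
  -- each `L i` is small
  have hLsmall : ∀ i ∈ I, (L i).card ≤ (k + (s - I.card + 1) - 2).choose (k - 1) - 1 := by
    intro i hi
    by_contra hlt
    have hlt : (k + (s - I.card + 1) - 2).choose (k - 1) ≤ (L i).card := by omega
    rcases upper G hk (show 1 ≤ s - I.card + 1 by omega) (L i) hlt with ⟨K, hK, hKc⟩ | ⟨T, hT, hTc⟩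
    · exact hG.1 K hKc
    · set X := (I.erase i).image (fun j => c (j + 1)) with hX
      have hXc : X.card = I.card - 1 := by
        rw [hX, hsinj _ (erase_subset _ _), card_erase_of_mem hi]
      have hdis : Disjoint T X := by
        rw [disjoint_left]
        intro v hv hv'
        obtain ⟨j, hj, rfl⟩ := mem_image.mp hv'
        exact hLR i _ (hT hv) j (mem_erase.mp hj).2 rfl
      have hcl : Gᶜ.IsClique ((T ∪ X : Finset V) : Set V) := by
        have hTX : ∀ x ∈ T, ∀ y ∈ X, Gᶜ.Adj x y := by
          intro x hx y hy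
          obtain ⟨j, hj, rfl⟩ := mem_image.mp hy
          rw [SimpleGraph.compl_adj]
          refine ⟨hLR i x (hT hx) j (mem_erase.mp hj).2, fun hadj => ?_⟩
          have : j ∈ Jv x := mem_filter.mpr ⟨(mem_erase.mp hj).2, hadj⟩
          have := hLJ i x (hT hx) this
          rw [mem_singleton] at this
          exact (mem_erase.mp hj).1 this
        intro x hx y hy hxy
        simp only [coe_union, Set.mem_union, mem_coe] at hx hy
        rcases hx with hx | hx <;> rcases hy with hy | hy
        · exact hTc.isClique hx hy hxy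
        · exact hTX x hx y hy
        · exact (hTX y hy x hx).symm
        · exact hclique (I.erase i) (erase_subset _ _) hx hy hxy
      have h1 := clique_card_lt hG.2 hcl
      rw [card_union_of_disjoint hdis, hXc, hTc.card_eq] at h1
      have : 0 < I.card := card_pos.mpr hIne
      omega
  have hsum : ∑ i ∈ I, (L i).card ≤ I.card * ((k + (s - I.card + 1) - 2).choose (k - 1) - 1) := by
    calc ∑ i ∈ I, (L i).card ≤ ∑ i ∈ I, ((k + (s - I.card + 1) - 2).choose (k - 1) - 1) :=
          sum_le_sum hLsmall
      _ = _ := by rw [sum_const, smul_eq_mul]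
  have hsum2 : ∑ i ∈ I, (L i).card
      = (∑ i ∈ I, ((range b).filter (fun a => Jv (c a) ⊆ {i})).card)
        + ∑ i ∈ I, (off.filter (fun v => Jv v ⊆ {i})).card := by
    rw [← sum_add_distrib]
    exact sum_congr rfl (fun i _ => hLc i)
  omega

end Pool.Agent.RamseyHam
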