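import Mathlib

/-! Erdős' lower bound: `N² ≤ 2^k` vertices do not force a `k`-clique or independent `k`-set. -/

namespace Pool.Agent.RamseyHam

open Finset

theorem fact_sq (k : ℕ) (hk : 3 ≤ k) : 4 * 2 ^ k < (k.factorial) ^ 2 := by
  induction k, hk using Nat.le_induction with
  | base => decide
  | succ k hk ih =>
    rw [Nat.factorial_succ, mul_pow, pow_succ]
    have : 2 ≤ (k + 1) ^ 2 := by nlinarith
    calc 4 * (2 ^ k * 2) = 2 * (4 * 2 ^ k) := by ring
      _ < 2 * (k.factorial) ^ 2 := by omega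
      _ ≤ (k + 1) ^ 2 * (k.factorial) ^ 2 := Nat.mul_le_mul_right _ this

theorem numeric (k N : ℕ) (hk : 3 ≤ k) (hN : N ^ 2 ≤ 2 ^ k) :
    2 * N.choose k < 2 ^ (k.choose 2) := by
  by_contra hcon
  have hcon : 2 ^ (k.choose 2) ≤ 2 * N.choose k := not_lt.mp hcon
  have h1 : N.choose k * k.factorial ≤ N ^ k := by
    rw [mul_comm, ← Nat.descFactorial_eq_factorial_mul_choose]
    exact Nat.descFactorial_le_pow N k
  have h2 : (2 ^ (k.choose 2)) ^ 2 * (k.factorial) ^ 2 ≤ 4 * (2 ^ k) ^ k := by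
    calc (2 ^ (k.choose 2)) ^ 2 * (k.factorial) ^ 2
        ≤ (2 * N.choose k) ^ 2 * (k.factorial) ^ 2 :=
          Nat.mul_le_mul_right _ (Nat.pow_le_pow_left hcon 2)
      _ = 4 * (N.choose k * k.factorial) ^ 2 := by ring
      _ ≤ 4 * (N ^ k) ^ 2 := Nat.mul_le_mul_left _ (Nat.pow_le_pow_left h1 2)
      _ = 4 * (N ^ 2) ^ k := by ring
      _ ≤ 4 * (2 ^ k) ^ k := Nat.mul_le_mul_left _ (Nat.pow_le_pow_left hN k)
  have h3 : (2 ^ (k.choose 2)) ^ 2 * 2 ^ k = (2 ^ k) ^ k := by
    rw [← pow_mul, ← pow_add, ← pow_mul]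
    congr 1
    have := Nat.choose_two_right k
    have h4 : k.choose 2 * 2 = k * (k - 1) := by
      rw [this]
      exact Nat.div_mul_cancel (Nat.even_mul_pred_self k).two_dvd
    rw [h4]
    obtain ⟨j, rfl⟩ : ∃ j, k = j + 1 := ⟨k - 1, by omega⟩
    simp; ring
  rw [← h3] at h2
  have h5 := fact_sq k hk
  have hpos : 0 < (2 ^ (k.choose 2)) ^ 2 := by positivity
  have : (2 ^ (k.choose 2)) ^ 2 * (k.factorial) ^ 2 ≤ (2 ^ (k.choose 2)) ^ 2 * (4 * 2 ^ k) := by
    calc _ ≤ _ := h2
      _ = _ := by ring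
  have := Nat.le_of_mul_le_mul_left this hpos
  omega

/-- the graph with edge set `F` -/
def gr {N : ℕ} (F : Finset (Finset (Fin N))) : SimpleGraph (Fin N) where
  Adj a b := a ≠ b ∧ ({a, b} : Finset (Fin N)) ∈ F
  symm := ⟨by
    intro a b h
    exact ⟨h.1.symm, by rw [Finset.pair_comm]; exact h.2⟩⟩
  loopless := ⟨fun a h => h.1 rfl⟩

theorem erdos (k N : ℕ) (hk : 3 ≤ k) (hN : N ^ 2 ≤ 2 ^ k) :
    ∃ H : SimpleGraph (Fin N), H.CliqueFree k ∧ Hᶜ.CliqueFree k := by
  classical
  set E : Finset (Finset (Fin N)) := powersetCard 2 (univ : Finset (Fin N)) with hE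
  have hEc : E.card = N.choose 2 := by rw [hE, card_powersetCard]; simp
  set A : Finset (Finset (Fin N)) := powersetCard k (univ : Finset (Fin N)) with hA
  have hAc : A.card = N.choose k := by rw [hA, card_powersetCard]; simp
  have hsub : ∀ S : Finset (Fin N), powersetCard 2 S ⊆ E := fun S =>
    powersetCard_mono (subset_univ S)
  have hcard2 : ∀ S ∈ A, (powersetCard 2 S).card = k.choose 2 := by
    intro S hS
    rw [card_powersetCard, (mem_powersetCard.mp hS).2]
  set bad : Finset (Fin N) → Finset (Finset (Finset (Fin N))) :=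
    fun S => Icc (powersetCard 2 S) E ∪ (E \ powersetCard 2 S).powerset with hbad
  have hbadc : ∀ S ∈ A, (bad S).card ≤ 2 * 2 ^ (N.choose 2 - k.choose 2) := by
    intro S hS
    refine (card_union_le _ _).trans ?_
    rw [card_Icc_finset (hsub S), card_powerset, card_sdiff_of_subset (hsub S), hEc, hcard2 S hS]
    omega
  have hlt : (A.biUnion bad).card < E.powerset.card := by
    rcases A.eq_empty_or_nonempty with h0 | hne
    · rw [h0]; simp
    · obtain ⟨S0, hS0⟩ := hne
      have hle : k.choose 2 ≤ N.choose 2 := by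
        rw [← hcard2 S0 hS0, ← hEc]; exact card_le_card (hsub S0)
      calc (A.biUnion bad).card ≤ A.card * (2 * 2 ^ (N.choose 2 - k.choose 2)) :=
            card_biUnion_le_card_mul _ _ _ hbadc
        _ = (2 * N.choose k) * 2 ^ (N.choose 2 - k.choose 2) := by rw [hAc]; ring
        _ < 2 ^ (k.choose 2) * 2 ^ (N.choose 2 - k.choose 2) :=
            Nat.mul_lt_mul_of_pos_right (numeric k N hk hN) (by positivity)
        _ = E.powerset.card := by
            rw [← pow_add, card_powerset, hEc]; congr 1; omega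
  obtain ⟨F, hF, hFn⟩ := exists_mem_notMem_of_card_lt_card hlt
  have hFn' : ∀ S ∈ A, F ∉ bad S := by
    intro S hS hb
    exact hFn (mem_biUnion.mpr ⟨S, hS, hb⟩)
  refine ⟨gr F, ?_, ?_⟩
  · intro S hS
    have hSA : S ∈ A := mem_powersetCard.mpr ⟨subset_univ _, hS.card_eq⟩
    apply hFn' S hSA
    rw [hbad]
    apply mem_union_left
    rw [mem_Icc]
    refine ⟨?_, mem_powerset.mp hF⟩
    intro p hp
    obtain ⟨hpS, hp2⟩ := mem_powersetCard.mp hp
    obtain ⟨a, b, hab, rfl⟩ := card_eq_two.mp hp2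
    have ha : a ∈ S := hpS (by simp)
    have hb : b ∈ S := hpS (by simp)
    exact (hS.isClique (by exact_mod_cast ha) (by exact_mod_cast hb) hab).2
  · intro S hS
    have hSA : S ∈ A := mem_powersetCard.mpr ⟨subset_univ _, hS.card_eq⟩
    apply hFn' S hSA
    rw [hbad]
    apply mem_union_right
    rw [mem_powerset]
    intro p hp
    rw [mem_sdiff]
    refine ⟨mem_powerset.mp hF hp, ?_⟩
    intro hpS'
    obtain ⟨hpS, hp2⟩ := mem_powersetCard.mp hpS'
    obtain ⟨a, b, hab, rfl⟩ := card_eq_two.mp hp2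
    have ha : a ∈ S := hpS (by simp)
    have hb : b ∈ S := hpS (by simp)
    have hadj := hS.isClique (by exact_mod_cast ha) (by exact_mod_cast hb) hab
    rw [SimpleGraph.compl_adj] at hadj
    exact hadj.2 ⟨hab, hp⟩

end Pool.Agent.RamseyHam
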