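import Mathlib

/-! The numerical inequality for the sector. -/

namespace Pool.Agent.RamseyHam

/-- the bound in terms of `k` and `d = s - k` -/
def gg (k d : ℕ) : ℕ := (k + d) * (k + d - 2) * (k + d + 2).choose (d + 3)

theorem num_base (d : ℕ) (hd : d < 25) : (gg (10 * d + 55) d) ^ 2 ≤ 2 ^ (10 * d + 55) := by
  have h : (2 : ℕ) ^ (10 * d + 55) = 2 ^ (10 * d) * 2 ^ 55 := pow_add 2 (10 * d) 55
  rw [h]
  unfold gg
  interval_cases d <;>
    (rw [Nat.choose_eq_descFactorial_div_factorial]; norm_num [Nat.descFactorial, Nat.factorial])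

theorem choose_k (k d : ℕ) :
    (k + 1 + d + 2).choose (d + 3) * k = (k + d + 2).choose (d + 3) * (k + d + 3) := by
  have h := Nat.choose_mul_succ_eq (k + d + 2) (d + 3)
  have e1 : k + d + 2 + 1 - (d + 3) = k := by omega
  rw [e1] at h
  have e2 : k + 1 + d + 2 = k + d + 2 + 1 := by ring
  rw [e2, ← h]

theorem choose_d (k d : ℕ) :
    (k + (d + 1) + 2).choose (d + 1 + 3) * (d + 4) = (k + d + 2).choose (d + 3) * (k + d + 3) := by
  have h := Nat.add_one_mul_choose_eq (k + d + 2) (d + 3)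
  have e2 : k + (d + 1) + 2 = k + d + 2 + 1 := by ring
  have e3 : d + 1 + 3 = d + 3 + 1 := by ring
  rw [e2, e3, show d + 4 = d + 3 + 1 by ring, ← h]
  ring

theorem choose_k_le (k d : ℕ) (h : 10 * d + 30 ≤ k) :
    10 * (k + 1 + d + 2).choose (d + 3) ≤ 11 * (k + d + 2).choose (d + 3) := by
  have h1 := choose_k k d
  apply Nat.le_of_mul_le_mul_right _ (show 0 < k by omega)
  calc 10 * (k + 1 + d + 2).choose (d + 3) * k
      = 10 * ((k + 1 + d + 2).choose (d + 3) * k) := by ring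
    _ = (k + d + 2).choose (d + 3) * (10 * (k + d + 3)) := by rw [h1]; ring
    _ ≤ (k + d + 2).choose (d + 3) * (11 * k) := Nat.mul_le_mul_left _ (by omega)
    _ = 11 * (k + d + 2).choose (d + 3) * k := by ring

theorem choose_k_pow (k d : ℕ) (h : 10 * d + 30 ≤ k) (j : ℕ) :
    10 ^ j * (k + j + d + 2).choose (d + 3) ≤ 11 ^ j * (k + d + 2).choose (d + 3) := by
  induction j with
  | zero => simp
  | succ j ih =>
    have h1 := choose_k_le (k + j) d (by omega)
    rw [show k + (j + 1) = k + j + 1 by ring, pow_succ, pow_succ]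
    calc 10 ^ j * 10 * (k + j + 1 + d + 2).choose (d + 3)
        = 10 ^ j * (10 * (k + j + 1 + d + 2).choose (d + 3)) := by ring
      _ ≤ 10 ^ j * (11 * (k + j + d + 2).choose (d + 3)) := Nat.mul_le_mul_left _ h1
      _ = 11 * (10 ^ j * (k + j + d + 2).choose (d + 3)) := by ring
      _ ≤ 11 * (11 ^ j * (k + d + 2).choose (d + 3)) := Nat.mul_le_mul_left _ ih
      _ = 11 ^ j * 11 * (k + d + 2).choose (d + 3) := by ring

/-- one step in `k` -/
theorem num_k (k d : ℕ) (h : 10 * d + 55 ≤ k) (hk : (gg k d) ^ 2 ≤ 2 ^ k) :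
    (gg (k + 1) d) ^ 2 ≤ 2 ^ (k + 1) := by
  have h1 := choose_k_le k d (by omega)
  have h2 : 25 * ((k + 1 + d) * (k + 1 + d - 2)) ≤ 26 * ((k + d) * (k + d - 2)) := by
    obtain ⟨u, hu⟩ : ∃ u, k + d = u + 55 := ⟨k + d - 55, by omega⟩
    have e1 : k + 1 + d = u + 56 := by omega
    rw [e1, hu, show u + 56 - 2 = u + 54 by omega, show u + 55 - 2 = u + 53 by omega]
    nlinarith
  have h3 : 250 * gg (k + 1) d ≤ 286 * gg k d := by
    unfold gg
    calc 250 * ((k + 1 + d) * (k + 1 + d - 2) * (k + 1 + d + 2).choose (d + 3))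
        = (25 * ((k + 1 + d) * (k + 1 + d - 2))) *
          (10 * (k + 1 + d + 2).choose (d + 3)) := by ring
      _ ≤ (26 * ((k + d) * (k + d - 2))) * (11 * (k + d + 2).choose (d + 3)) :=
          Nat.mul_le_mul h2 h1
      _ = 286 * ((k + d) * (k + d - 2) * (k + d + 2).choose (d + 3)) := by ring
  have h4 : (250 * gg (k + 1) d) ^ 2 ≤ (286 * gg k d) ^ 2 := Nat.pow_le_pow_left h3 2
  rw [mul_pow, mul_pow] at h4
  rw [pow_succ 2 k]
  omega

/-- the step to the next `d` -/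
theorem num_d (d : ℕ) (hd : 24 ≤ d) (h : (gg (10 * d + 55) d) ^ 2 ≤ 2 ^ (10 * d + 55)) :
    (gg (10 * (d + 1) + 55) (d + 1)) ^ 2 ≤ 2 ^ (10 * (d + 1) + 55) := by
  obtain ⟨k, hk⟩ : ∃ k, k = 10 * d + 55 := ⟨_, rfl⟩
  rw [← hk] at h
  have e0 : 10 * (d + 1) + 55 = k + 10 := by omega
  rw [e0]
  have h1 := choose_k_pow k (d + 1) (by omega) 10
  have h2 := choose_d k d
  have h3 : 2 * (k + (d + 1) + 2).choose (d + 1 + 3) ≤ 23 * (k + d + 2).choose (d + 3) := by
    apply Nat.le_of_mul_le_mul_right _ (show 0 < d + 4 by omega)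
    calc 2 * (k + (d + 1) + 2).choose (d + 1 + 3) * (d + 4)
        = 2 * ((k + (d + 1) + 2).choose (d + 1 + 3) * (d + 4)) := by ring
      _ = (k + d + 2).choose (d + 3) * (2 * (k + d + 3)) := by rw [h2]; ring
      _ ≤ (k + d + 2).choose (d + 3) * (23 * (d + 4)) := Nat.mul_le_mul_left _ (by omega)
      _ = 23 * (k + d + 2).choose (d + 3) * (d + 4) := by ring
  have h4 : 14 * ((k + 10 + (d + 1)) * (k + 10 + (d + 1) - 2)) ≤
      15 * ((k + d) * (k + d - 2)) := by
    obtain ⟨u, hu⟩ : ∃ u, k + d = u + 319 := ⟨k + d - 319, by omega⟩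
    have e1 : k + 10 + (d + 1) = u + 330 := by omega
    rw [e1, hu, show u + 330 - 2 = u + 328 by omega, show u + 319 - 2 = u + 317 by omega]
    nlinarith
  have h5 : 280000000000 * gg (k + 10) (d + 1) ≤ 8948411487345 * gg k d := by
    unfold gg
    calc 280000000000 * ((k + 10 + (d + 1)) * (k + 10 + (d + 1) - 2) *
          (k + 10 + (d + 1) + 2).choose (d + 1 + 3))
        = (14 * ((k + 10 + (d + 1)) * (k + 10 + (d + 1) - 2))) *
          (2 * (10 ^ 10 * (k + 10 + (d + 1) + 2).choose (d + 1 + 3))) := by ring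
      _ ≤ (15 * ((k + d) * (k + d - 2))) *
          (2 * (11 ^ 10 * (k + (d + 1) + 2).choose (d + 1 + 3))) :=
          Nat.mul_le_mul h4 (Nat.mul_le_mul_left _ h1)
      _ = (15 * ((k + d) * (k + d - 2))) * 11 ^ 10 *
          (2 * (k + (d + 1) + 2).choose (d + 1 + 3)) := by ring
      _ ≤ (15 * ((k + d) * (k + d - 2))) * 11 ^ 10 * (23 * (k + d + 2).choose (d + 3)) :=
          Nat.mul_le_mul_left _ h3
      _ = 8948411487345 * ((k + d) * (k + d - 2) * (k + d + 2).choose (d + 3)) := by ring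
  have h6 : gg (k + 10) (d + 1) ≤ 32 * gg k d := by omega
  calc (gg (k + 10) (d + 1)) ^ 2 ≤ (32 * gg k d) ^ 2 := Nat.pow_le_pow_left h6 2
    _ = 1024 * (gg k d) ^ 2 := by ring
    _ ≤ 1024 * 2 ^ k := Nat.mul_le_mul_left _ h
    _ = 2 ^ (k + 10) := by ring

theorem num_line (d : ℕ) : (gg (10 * d + 55) d) ^ 2 ≤ 2 ^ (10 * d + 55) := by
  induction d with
  | zero => exact num_base 0 (by omega)
  | succ d ih =>
    rcases Nat.lt_or_ge (d + 1) 25 with h | h
    · exact num_base (d + 1) h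
    · exact num_d d (by omega) ih

theorem num_all (k d : ℕ) (h : 10 * d + 55 ≤ k) : (gg k d) ^ 2 ≤ 2 ^ k := by
  obtain ⟨j, rfl⟩ : ∃ j, k = 10 * d + 55 + j := ⟨k - (10 * d + 55), by omega⟩
  clear h
  induction j with
  | zero => exact num_line d
  | succ j ih => exact num_k (10 * d + 55 + j) d (by omega) ih

theorem numeric_sector {k s : ℕ} (hks : k ≤ s) (h : 10 * s + 55 ≤ 11 * k) :
    (s * (s - 2) * (s + 2).choose (k - 1)) ^ 2 ≤ 2 ^ k := by
  obtain ⟨d, rfl⟩ : ∃ d, s = k + d := ⟨s - k, by omega⟩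
  have h1 := num_all k d (by omega)
  unfold gg at h1
  have h2 : (k + d + 2).choose (k - 1) = (k + d + 2).choose (d + 3) :=
    Nat.choose_symm_of_eq_add (by omega)
  rw [h2]
  exact h1

end Pool.Agent.RamseyHam
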