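import Pool.Agent.Lib.MP_078aef_co.Main
import Pool.Agent.Lib.MP_078aef_co.Lower
import Pool.Agent.Lib.MP_078aef_co.Numeric

/-! The Ramsey number, critical graphs, and Hamiltonian cycles in the sense of Mathlib. -/

namespace Pool.Agent.RamseyHam

open Finset

section walks

variable {V : Type*} {G : SimpleGraph V}

theorem edge_not {u v : V} (p : G.Walk u v) (hp : p.IsPath) (h2 : 2 ≤ p.length) :
    s(v, u) ∉ p.edges := by
  cases p with
  | nil => simp at h2
  | @cons _ v' _ h q =>
    rw [SimpleGraph.Walk.cons_isPath_iff] at hp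
    intro hmem
    rw [SimpleGraph.Walk.edges_cons, List.mem_cons] at hmem
    rcases hmem with heq | hmem
    · rw [Sym2.eq_iff] at heq
      rcases heq with ⟨h1, -⟩ | ⟨h1, -⟩
      · subst h1
        exact hp.2 q.end_mem_support
      · subst h1
        have h3 := SimpleGraph.Walk.length_eq_zero_iff.mpr (SimpleGraph.Walk.isPath_iff_nil.mp hp.1)
        rw [SimpleGraph.Walk.length_cons] at h2
        omega
    · exact hp.2 (SimpleGraph.Walk.snd_mem_support_of_mem_edges q hmem)

theorem Cyc.hamiltonian [Fintype V] [DecidableEq V] {l : List V} (hl : Cyc G l)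
    (hlen : l.length = Fintype.card V) :
    ∃ (a : V) (p : G.Walk a a), p.IsHamiltonianCycle := by
  obtain ⟨hn, h3, a, b, hs, hadj⟩ := hl
  have hne : l ≠ [] := by
    rintro rfl
    simp at h3
  have ha : l.head hne = a := by
    have := hs.head
    rw [List.head?_eq_some_head hne] at this
    exact Option.some_injective _ this
  have hb : l.getLast hne = b := by
    have := hs.last
    rw [List.getLast?_eq_some_getLast hne] at this
    exact Option.some_injective _ this
  have hadj' : G.Adj (l.getLast hne) (l.head hne) := by rw [ha, hb]; exact hadj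
  obtain ⟨w, hw⟩ : ∃ w : G.Walk (l.head hne) (l.getLast hne), w.support = l :=
    ⟨SimpleGraph.Walk.ofSupport l hne hs.chain, by simp⟩
  have hwl : w.length + 1 = l.length := by
    rw [← SimpleGraph.Walk.length_support, hw]
  have hwp : w.IsPath := by
    rw [SimpleGraph.Walk.isPath_def, hw]
    exact hn
  refine ⟨_, SimpleGraph.Walk.cons hadj' w, ?_⟩
  rw [SimpleGraph.Walk.isHamiltonianCycle_iff_isCycle_and_length_eq,
    SimpleGraph.Walk.cons_isCycle_iff]
  refine ⟨⟨hwp, edge_not w hwp (by omega)⟩, ?_⟩
  rw [SimpleGraph.Walk.length_cons, hwl, hlen]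

end walks

/-- `R(k,s)`, the least `n` such that every graph on `n` vertices contains `K_k` or has
independence number at least `s` -/
noncomputable def ramsey (k s : ℕ) : ℕ :=
  sInf {n : ℕ | ∀ H : SimpleGraph (Fin n), ¬ H.CliqueFree k ∨ s ≤ H.indepNum}

theorem indep_iff {α : Type*} [Fintype α] (H : SimpleGraph α) (s : ℕ) :
    H.indepNum < s ↔ Hᶜ.CliqueFree s := by
  constructor
  · intro h T hT
    rw [SimpleGraph.isNClique_compl] at hT
    have h1 := hT.isIndepSet.card_le_indepNum
    rw [hT.card_eq] at h1
    omega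
  · intro h
    by_contra hcon
    obtain ⟨T, hT⟩ := H.exists_isNIndepSet_indepNum
    rw [← SimpleGraph.isNClique_compl] at hT
    exact (h.mono (not_lt.mp hcon)) T hT

theorem isRam_ramsey {k s : ℕ} (hk : 1 ≤ k) (hs : 1 ≤ s) : IsRam k s (ramsey k s) := by
  classical
  obtain ⟨P, hP⟩ : ∃ P : Set ℕ, P =
    {n : ℕ | ∀ H : SimpleGraph (Fin n), ¬ H.CliqueFree k ∨ s ≤ H.indepNum} := ⟨_, rfl⟩
  have hR : ramsey k s = sInf P := by rw [hP]; rfl
  have hmem : ∀ n, n ∈ P ↔ ∀ H : SimpleGraph (Fin n), ¬ KS k s H := by
    intro n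
    rw [hP, Set.mem_ofPred_eq]
    apply forall_congr'
    intro H
    unfold KS
    rw [← indep_iff, not_and_or, not_lt]
  have hne : P.Nonempty := by
    refine ⟨(k + s - 2).choose (k - 1), (hmem _).mpr ?_⟩
    intro H hH
    rcases upper H hk hs univ (by simp) with ⟨K, -, hK⟩ | ⟨I, -, hI⟩
    · exact hH.1 K hK
    · exact hH.2 I hI
  have hin : sInf P ∈ P := Nat.sInf_mem hne
  have hzero : 0 ∉ P := by
    intro h
    have h1 := (hmem 0).mp h ⊥
    apply h1
    constructor
    · intro T hT
      have := hT.card_eq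
      have h2 : T.card ≤ 0 := by
        have := card_le_univ T
        simpa using this
      omega
    · intro T hT
      have := hT.card_eq
      have h2 : T.card ≤ 0 := by
        have := card_le_univ T
        simpa using this
      omega
  have hpos : 0 < sInf P := by
    rcases Nat.eq_zero_or_pos (sInf P) with h | h
    · rw [h] at hin
      exact absurd hin hzero
    · exact h
  rw [hR]
  refine ⟨hpos, ?_, ?_⟩
  · intro n hn H hH
    have h1 := (hmem _).mp hin (H.comap (Fin.castLE hn))
    apply h1
    exact hH.of_embedding (SimpleGraph.Embedding.comap (Fin.castLEEmb hn) H)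
  · have h1 : sInf P - 1 ∉ P := Nat.notMem_of_lt_sInf (by omega)
    rw [hmem] at h1
    push Not at h1
    exact h1

/-- a graph is Ramsey-critical if it has no `K_k`, independence number less than `s`, and
`R(k,s) - 1` vertices -/
structure IsCritical {V : Type*} [Fintype V] (k s : ℕ) (G : SimpleGraph V) : Prop where
  cliqueFree : G.CliqueFree k
  indep : G.indepNum < s
  card : Fintype.card V = ramsey k s - 1

/-- the sector theorem -/
theorem sector {V : Type*} [Fintype V] [DecidableEq V] {k s : ℕ} (hks : k ≤ s)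
    (h : 10 * s + 55 ≤ 11 * k) {G : SimpleGraph V} (hG : IsCritical k s G) :
    ∃ (a : V) (p : G.Walk a a), p.IsHamiltonianCycle := by
  have hR : ∀ p, 2 ≤ p → IsRam k p (ramsey k p) := fun p hp =>
    isRam_ramsey (by omega) (by omega)
  have hKS : KS k s G := ⟨hG.cliqueFree, (indep_iff G s).mp hG.indep⟩
  have hcrit : Fintype.card V + 1 = ramsey k s := by
    have h1 := hG.card
    have h2 := (hR s (by omega)).pos
    omega
  have hbig : s * (s - 2) * (s + 2).choose (k - 1) ≤ Fintype.card V := by
    obtain ⟨H, hH1, hH2⟩ := erdos k _ (by omega) (numeric_sector hks h)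
    have h1 : KS k s H := KS.mono ⟨hH1, hH2⟩ hks
    have h2 := (hR s (by omega)).card_lt h1
    rw [Fintype.card_fin] at h2
    omega
  obtain ⟨l, hl, hlen⟩ := main (by omega) hks hKS (fun p => ramsey k p) hR hcrit hbig
  exact hl.hamiltonian hlen

end Pool.Agent.RamseyHam
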