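import Pool.Agent.Lib.MP_078aef_co.Count

/-! A Ramsey-critical `(k,s)`-graph on sufficiently many vertices has a spanning cycle. -/

namespace Pool.Agent.RamseyHam

open Finset

variable {V : Type*} [Fintype V] [DecidableEq V] {G : SimpleGraph V}

omit [DecidableEq V] in
/-- there is a longest cycle -/
theorem exists_longest (h : ∃ l, Cyc G l) :
    ∃ l, Cyc G l ∧ ∀ l', Cyc G l' → l'.length ≤ l.length := by
  obtain ⟨l0, hl0⟩ := h
  have hne : {n | ∃ l, Cyc G l ∧ l.length = n}.Nonempty := ⟨_, l0, hl0, rfl⟩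
  have hbd : BddAbove {n | ∃ l, Cyc G l ∧ l.length = n} := by
    refine ⟨Fintype.card V, ?_⟩
    rintro n ⟨l, hl, rfl⟩
    exact hl.1.length_le_card
  obtain ⟨l, hl, hlen⟩ := Nat.sSup_mem hne hbd
  refine ⟨l, hl, fun l' hl' => ?_⟩
  rw [hlen]
  exact le_csSup hbd ⟨l', hl', rfl⟩

omit [Fintype V] in
/-- a triangle is a cycle -/
theorem cyc_of_triangle {K : Finset V} (hK : G.IsNClique 3 K) : ∃ l, Cyc G l := by
  rw [SimpleGraph.is3Clique_iff] at hK
  obtain ⟨a, b, c, hab, hac, hbc, -⟩ := hK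
  refine ⟨[a, b, c], ?_, by simp, a, c, ⟨?_, rfl, rfl⟩, hac.symm⟩
  · simp [hab.ne, hac.ne, hbc.ne]
  · simp [hab, hbc]

/-- the graph of the edges off the cycle -/
def offG (G : SimpleGraph V) (c : ℕ → V) (m : ℕ) : SimpleGraph V where
  Adj x y := G.Adj x y ∧ (∀ i < m, c i ≠ x) ∧ (∀ i < m, c i ≠ y)
  symm := ⟨fun _ _ h => ⟨h.1.symm, h.2.2, h.2.1⟩⟩
  loopless := ⟨fun x h => G.loopless.irrefl x h.1⟩

omit [Fintype V] in
theorem HConn_reach (c : ℕ → V) (m : ℕ) (h0 : V) :
    HConn G {x | (offG G c m).Reachable h0 x} := by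
  intro x hx y hy
  have hxy : (offG G c m).Reachable x y := hx.symm.trans hy
  obtain ⟨p⟩ := hxy
  have hp := (p.toPath).2
  refine ⟨(p.toPath : (offG G c m).Walk x y).support, ⟨?_, ?_, ?_⟩, hp.support_nodup, ?_⟩
  · exact (SimpleGraph.Walk.isChain_adj_support _).imp (fun _ _ h => h.1)
  · rw [List.head?_eq_some_head (SimpleGraph.Walk.support_ne_nil _),
      SimpleGraph.Walk.head_support]
  · rw [List.getLast?_eq_some_getLast (SimpleGraph.Walk.support_ne_nil _),
      SimpleGraph.Walk.getLast_support]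
  · intro z hz
    exact hx.trans ⟨SimpleGraph.Walk.takeUntil _ z hz⟩

omit [Fintype V] [DecidableEq V] in
theorem reach_off {c : ℕ → V} {m : ℕ} {h0 : V} (h : ∀ i < m, c i ≠ h0) {x : V}
    (hx : (offG G c m).Reachable h0 x) : ∀ i < m, c i ≠ x := by
  obtain ⟨p⟩ := hx
  induction p with
  | nil => exact h
  | cons hadj p ih => exact ih hadj.2.2

/-- the indices of the vertices with a neighbour in `H` are at least `k - 2` -/
theorem many_T {k s m : ℕ} {c : ℕ → V} (hk : 2 ≤ k) (hG : KS k s G) (R : ℕ → ℕ)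
    (hR : ∀ p, 2 ≤ p → IsRam k p (R p)) (hs : 2 ≤ s) (hcrit : Fintype.card V + 1 = R s)
    (hc : CF G c m) (hmax : ∀ l, Cyc G l → l.length ≤ m) {h0 : V} (h : ∀ i < m, c i ≠ h0)
    (T : Finset ℕ) (hT : ∀ i, i ∈ T ↔ i < m ∧ TT G c {x | (offG G c m).Reachable h0 x} i) :
    k - 2 ≤ T.card := by
  classical
  set H : Set V := {x | (offG G c m).Reachable h0 x} with hH
  have hHc : HConn G H := HConn_reach c m h0
  have hoff : ∀ x ∈ H, ∀ i < m, c i ≠ x := fun x hx => reach_off h hx
  have hm := hc.three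
  set A : Finset V := univ.filter (fun x => x ∈ H) with hA
  set TV : Finset V := T.image c with hTV
  set B : Finset V := univ \ (A ∪ TV) with hB
  have hAne : A.Nonempty := ⟨h0, mem_filter.mpr ⟨mem_univ _, SimpleGraph.Reachable.refl _⟩⟩
  have hAT : Disjoint A TV := by
    rw [disjoint_left]
    intro x hx hx'
    obtain ⟨i, hi, rfl⟩ := mem_image.mp hx'
    exact hoff _ (mem_filter.mp hx).2 i ((hT i).mp hi).1 rfl
  have hTVc : TV.card = T.card := by
    rw [hTV]
    apply card_image_of_injOn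
    intro i hi j hj hij
    exact hc.inj i j ((hT i).mp hi).1 ((hT j).mp hj).1 hij
  have hBne : B.Nonempty := by
    have hone : ¬ TT G c H 0 ∨ ¬ TT G c H (0 + 1) := by
      by_contra hcon
      have hcon := not_or.mp hcon
      exact E0 hc hmax hHc hoff (show 0 + 1 < m by omega) (not_not.mp hcon.1)
        (not_not.mp hcon.2)
    have key : ∀ i < m, ¬ TT G c H i → c i ∈ B := by
      intro i hi hTi
      rw [hB, mem_sdiff]
      refine ⟨mem_univ _, fun hmem => ?_⟩
      rcases mem_union.mp hmem with h1 | h1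
      · exact hoff _ (mem_filter.mp h1).2 i hi rfl
      · obtain ⟨j, hj, hji⟩ := mem_image.mp h1
        have := hc.inj j i ((hT j).mp hj).1 hi hji
        subst this
        exact hTi ((hT j).mp hj).2
    rcases hone with h1 | h1
    · exact ⟨_, key 0 (by omega) h1⟩
    · exact ⟨_, key (0 + 1) (by omega) h1⟩
  have hno : ∀ x ∈ A, ∀ y ∈ B, ¬ G.Adj x y := by
    intro x hx y hy hadj
    have hxH : x ∈ H := (mem_filter.mp hx).2
    have hyB := (mem_sdiff.mp hy).2
    by_cases hyoff : ∀ i < m, c i ≠ y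
    · apply hyB
      refine mem_union_left _ (mem_filter.mpr ⟨mem_univ _, ?_⟩)
      have h1 : (offG G c m).Adj x y := ⟨hadj, hoff x hxH, hyoff⟩
      exact SimpleGraph.Reachable.trans hxH h1.reachable
    · push Not at hyoff
      obtain ⟨i, hi, rfl⟩ := hyoff
      apply hyB
      exact mem_union_right _ (mem_image.mpr ⟨i, (hT i).mpr ⟨hi, x, hxH, hadj.symm⟩, rfl⟩)
  have hdis : Disjoint A B := by
    rw [disjoint_left]
    intro x hx hx'
    exact (mem_sdiff.mp hx').2 (mem_union_left _ hx)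
  have hcut := cut G hk hG R hR hs hcrit A B hAne hBne hdis hno
  have hBc : B.card + (A ∪ TV).card = Fintype.card V := by
    have := card_sdiff_add_card_eq_card (subset_univ (A ∪ TV))
    rw [card_univ] at this
    exact this
  rw [card_union_of_disjoint hAT, hTVc] at hBc
  omega

theorem le_choose (n : ℕ) : ∀ j, 1 ≤ j → j + 1 ≤ n → n ≤ n.choose j := by
  induction n with
  | zero => intro j _ h; omega
  | succ n ih =>
    intro j h1 h2
    obtain ⟨j, rfl⟩ : ∃ j', j = j' + 1 := ⟨j - 1, by omega⟩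
    rw [Nat.choose_succ_succ']
    have h3 : 1 ≤ n.choose (j + 1) := Nat.choose_pos (by omega)
    rcases Nat.eq_zero_or_pos j with h | h
    · subst h
      rw [Nat.choose_zero_right, Nat.choose_one_right]
      omega
    · have h4 := ih j h (by omega)
      omega

theorem rot_mod {m r j : ℕ} (hj : j < m) : ((j + (m - r % m)) % m + r) % m = j := by
  rw [Nat.mod_add_mod]
  have h1 : r % m < m := Nat.mod_lt _ (by omega)
  have h2 := Nat.div_add_mod r m
  have h3 : j + (m - r % m) + r = j + m * (r / m + 1) := by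
    rw [Nat.mul_add, Nat.mul_one]
    omega
  rw [h3, Nat.add_mul_mod_self_left, Nat.mod_eq_of_lt hj]

/-- every vertex list of a longest cycle is spanning if the order is large -/
theorem main {k s : ℕ} (hk : 4 ≤ k) (hks : k ≤ s) (hG : KS k s G) (R : ℕ → ℕ)
    (hR : ∀ p, 2 ≤ p → IsRam k p (R p)) (hcrit : Fintype.card V + 1 = R s)
    (hbig : s * (s - 2) * (s + 2).choose (k - 1) ≤ Fintype.card V) :
    ∃ l, Cyc G l ∧ l.length = Fintype.card V := by
  classical
  have hch : s + 2 ≤ (s + 2).choose (k - 1) := le_choose _ _ (by omega) (by omega)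
  have hcyc : ∃ l, Cyc G l := by
    have h1 : (3 + s - 2).choose (3 - 1) ≤ (univ : Finset V).card := by
      rw [card_univ]
      refine le_trans ?_ hbig
      obtain ⟨u, rfl⟩ : ∃ u, s = u + 2 := ⟨s - 2, by omega⟩
      have e1 : 3 + (u + 2) - 2 = u + 3 := by omega
      rw [e1, show 3 - 1 = 2 from rfl, Nat.choose_two_right, Nat.add_sub_cancel]
      have e2 : (u + 3) * (u + 3 - 1) / 2 ≤ (u + 3) * (u + 3 - 1) := Nat.div_le_self _ _
      have e3 : (u + 3) * (u + 3 - 1) ≤ (u + 2) * u * (u + 2 + 2) := by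
        rw [show u + 3 - 1 = u + 2 by omega]
        have : u + 3 ≤ u * (u + 4) := by nlinarith
        nlinarith
      exact (e2.trans e3).trans (Nat.mul_le_mul_left _ hch)
    rcases upper G (k := 3) (l := s) (by omega) (by omega) univ h1 with ⟨K, -, hK⟩ | ⟨I, -, hI⟩
    · exact cyc_of_triangle hK
    · exact absurd hI (hG.2 I)
  obtain ⟨l, hl, hmax⟩ := exists_longest hcyc
  refine ⟨l, hl, ?_⟩
  by_contra hne
  have hlt : l.length < Fintype.card V := lt_of_le_of_ne hl.1.length_le_card hne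
  obtain ⟨c, hc, hcl⟩ := hl.toCF
  obtain ⟨m, hm⟩ : ∃ m, m = l.length := ⟨_, rfl⟩
  rw [← hm] at hlt hc hcl hmax
  obtain ⟨h0, hh0⟩ : ∃ h0, ∀ i < m, c i ≠ h0 := by
    by_contra hcon
    push Not at hcon
    have h1 : (univ : Finset V) ⊆ (range m).image c := by
      intro x _
      obtain ⟨i, hi, rfl⟩ := hcon x
      exact mem_image.mpr ⟨i, mem_range.mpr hi, rfl⟩
    have h2 := card_le_card h1
    have h3 := (card_image_le (s := range m) (f := c))
    rw [card_univ] at h2
    rw [card_range] at h3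
    omega
  set H : Set V := {x | (offG G c m).Reachable h0 x} with hH
  have hHc : HConn G H := HConn_reach c m h0
  have hoff : ∀ x ∈ H, ∀ i < m, c i ≠ x := fun x hx => reach_off hh0 hx
  have h3 := hc.three
  obtain ⟨T, hTdef⟩ : ∃ T, T = (range m).filter (fun i => TT G c H i) := ⟨_, rfl⟩
  have hT : ∀ i, i ∈ T ↔ i < m ∧ TT G c H i := by
    intro i
    rw [hTdef, mem_filter, mem_range]
  have hTk : k - 2 ≤ T.card := many_T (by omega) hG R hR (by omega) hcrit hc hmax hh0 T hT
  obtain ⟨r, hr⟩ := window m (fun i => TT G c H i)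
  rw [← hTdef] at hr
  -- the rotated cycle
  obtain ⟨c', hc'def⟩ : ∃ c' : ℕ → V, c' = fun i => c ((i + r) % m) := ⟨_, rfl⟩
  have hc' : CF G c' m := by rw [hc'def]; exact hc.rotate r
  have hTT' : ∀ i, TT G c' H i ↔ TT G c H ((i + r) % m) := by
    intro i
    rw [hc'def]
    rfl
  obtain ⟨I, hIdef⟩ : ∃ I, I = (range m).filter (fun i => i + 1 < m ∧ TT G c' H i) := ⟨_, rfl⟩
  have hI : ∀ i, i ∈ I ↔ i + 1 < m ∧ TT G c' H i := by
    intro i
    rw [hIdef, mem_filter, mem_range]
    constructor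
    · exact fun h => h.2
    · exact fun h => ⟨by omega, h⟩
  have hTI : T.card ≤ I.card + 1 := by
    have h1 : T.image (fun j => (j + (m - r % m)) % m) ⊆ insert (m - 1) I := by
      intro x hx
      obtain ⟨j, hj, rfl⟩ := mem_image.mp hx
      obtain ⟨hjm, hjT⟩ := (hT j).mp hj
      have hlt' : (j + (m - r % m)) % m < m := Nat.mod_lt _ (by omega)
      rw [mem_insert, hI, hTT', rot_mod hjm]
      by_cases h : (j + (m - r % m)) % m + 1 < m
      · exact Or.inr ⟨h, hjT⟩
      · exact Or.inl (by omega)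
    have h2 := card_le_card h1
    rw [card_image_of_injOn] at h2
    · exact h2.trans (card_insert_le _ _)
    · intro i hi j hj hij
      have e1 := rot_mod (r := r) ((hT i).mp hi).1
      have e2 := rot_mod (r := r) ((hT j).mp hj).1
      have hij' : (i + (m - r % m)) % m = (j + (m - r % m)) % m := hij
      rw [hij'] at e1
      omega
  have hIne : I.Nonempty := card_pos.mp (by omega)
  have hoff' : ∀ x ∈ H, ∀ i < m, c' i ≠ x := by
    intro x hx i hi
    rw [hc'def]
    exact hoff x hx _ (Nat.mod_lt _ (by omega))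
  obtain ⟨hq, hcount⟩ := count_part (b := m / (T.card + 1)) hG (by omega) hc' hmax hHc hoff'
    (show h0 ∈ H from SimpleGraph.Reachable.refl _) (Nat.div_le_self _ _)
    (fun i hi => by rw [hTT']; exact hr i hi) I hI hIne
  -- arithmetic
  obtain ⟨q, hqdef⟩ : ∃ q, q = I.card := ⟨_, rfl⟩
  obtain ⟨b, hbdef⟩ : ∃ b, b = m / (T.card + 1) := ⟨_, rfl⟩
  obtain ⟨C, hCdef⟩ : ∃ C, C = (k + (s - q + 1) - 2).choose (k - 1) := ⟨_, rfl⟩
  rw [← hqdef, ← hbdef, ← hCdef] at hcount
  rw [← hqdef] at hq hTI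
  have hC1 : 1 ≤ C := by
    rw [hCdef]
    exact Nat.choose_pos (by omega)
  have hC2 : C ≤ (s + 2).choose (k - 1) := by
    rw [hCdef]
    exact Nat.choose_le_choose _ (by omega)
  have hcount' : b + (Fintype.card V - m) + 1 ≤ q * C := by
    have : q * (C - 1) + q = q * C := by
      obtain ⟨C', rfl⟩ : ∃ C', C = C' + 1 := ⟨C - 1, by omega⟩
      rw [Nat.add_sub_cancel]
      ring
    omega
  have hmb : m < (b + 1) * (T.card + 1) := by
    rw [hbdef]
    have h1 := Nat.div_add_mod m (T.card + 1)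
    have h2 := Nat.mod_lt m (show 0 < T.card + 1 by omega)
    calc m = (T.card + 1) * (m / (T.card + 1)) + m % (T.card + 1) := h1.symm
      _ < (T.card + 1) * (m / (T.card + 1)) + (T.card + 1) := by omega
      _ = (m / (T.card + 1) + 1) * (T.card + 1) := by ring
  have hn : Fintype.card V < (q * C) * (q + 2) := by
    calc Fintype.card V = m + (Fintype.card V - m) := by omega
      _ < (b + 1) * (T.card + 1) + (Fintype.card V - m) := by omega
      _ ≤ (b + 1) * (q + 2) + (Fintype.card V - m) * (q + 2) := by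
          apply Nat.add_le_add
          · exact Nat.mul_le_mul_left _ (by omega)
          · exact Nat.le_mul_of_pos_right _ (by omega)
      _ = (b + (Fintype.card V - m) + 1) * (q + 2) := by ring
      _ ≤ (q * C) * (q + 2) := Nat.mul_le_mul_right _ hcount'
  have hfin : (q * C) * (q + 2) ≤ s * (s - 2) * (s + 2).choose (k - 1) := by
    calc (q * C) * (q + 2) = (q + 2) * q * C := by ring
      _ ≤ s * (s - 2) * (s + 2).choose (k - 1) :=
          Nat.mul_le_mul (Nat.mul_le_mul hq (by omega)) hC2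
  omega

end Pool.Agent.RamseyHam
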